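import Pool.Agent.Lib.MP_a15413_al.Fibre2

set_option autoImplicit false

namespace Pool.Agent.Lib.MP_a15413_al

open Set Filter Topology

variable {X F X' F' : Type} {G : SimpleGraph X} {G' : SimpleGraph X'}
  {O : Set (X → F)} {O' : Set (X' → F')} {ψ : St X F → St X' F'} {K : ℝ}

/-- all the edges leaving A start in a given ball -/
def CutIn (G : SimpleGraph X) (A : Set X) (o : X) (R : ℝ) : Prop :=
  ∀ a b, G.Adj a b → a ∈ A → b ∉ A → D G o a ≤ R

/-- uniformly one ended -/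
def OneEnd (G : SimpleGraph X) : Prop :=
  ∀ r : ℝ, ∃ r' : ℝ, ∀ o x x', r' < D G o x → r' < D G o x' →
    ∃ w : G.Walk x x', ∀ z ∈ w.support, r < D G o z

theorem CutIn.walk {A : Set X} {o : X} {R : ℝ} (h : CutIn G A o R) {p q : X} (w : G.Walk p q)
    (hw : ∀ z ∈ w.support, R < D G o z) : ∀ z ∈ w.support, (z ∈ A ↔ p ∈ A) := by
  induction w with
  | nil => simp
  | @cons a b c hab w ih =>
    have h1 : b ∈ A ↔ a ∈ A := by
      constructor
      · intro hb
        by_contra ha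
        have := h b a hab.symm hb ha
        have := hw b (by simp)
        linarith
      · intro ha
        by_contra hb
        have := h a b hab ha hb
        have := hw a (by simp)
        linarith
    intro z hz
    simp only [SimpleGraph.Walk.support_cons, List.mem_cons] at hz hw
    rcases hz with rfl | hz
    · rfl
    · rw [← h1]; exact ih (fun z hz => hw z (Or.inr hz)) z hz

/-- same side, and the lamps only differ on that side -/
def Same (A : Set X) (s t : St X F) : Prop :=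
  (t.2 ∈ A ↔ s.2 ∈ A) ∧ ∀ z ∈ df s.1 t.1, (z ∈ A ↔ s.2 ∈ A)

theorem Same.refl (A : Set X) (s : St X F) : Same A s s := ⟨Iff.rfl, by simp⟩
theorem Same.symm {A : Set X} {s t : St X F} (h : Same A s t) : Same A t s :=
  ⟨h.1.symm, fun z hz => (h.2 z (by rwa [df_comm])).trans h.1.symm⟩
theorem Same.trans {A : Set X} {s t u : St X F} (h : Same A s t) (h' : Same A t u) : Same A s u :=
  ⟨h'.1.trans h.1, fun z hz => (df_tri _ t.1 _ hz).elim (h.2 z) fun h2 => (h'.2 z h2).trans h.1⟩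

theorem CutIn.same (hG : G.Connected) {A : Set X} {o : X} {R : ℝ} (h : CutIn G A o R)
    {s t : St X F} {l : ℝ} (ht : Tour G s t l) (hs : R + l < D G o s.2) : Same A s t := by
  obtain ⟨w, h1, h2⟩ := ht
  have := h.walk w (fun z hz => by
    have := supp_dist w hz
    have := D_tri hG o z s.2
    rw [D_comm z] at this
    linarith)
  exact ⟨this _ w.end_mem_support, fun z hz => this z (h2 z hz)⟩

theorem QI.up2 (q : QI G G' O O' ψ K) {a b : X → F} {x y : X} {l : ℝ} (ha : a ∈ O) (hb : b ∈ O)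
    (h : Tour G (a, x) (b, y) l) : Tour G' (ψ (a, x)) (ψ (b, y)) (K * l + K) :=
  q.up (a, x) (b, y) l ha hb h

theorem QI.low2 (q : QI G G' O O' ψ K) {a b : X → F} {x y : X} {l : ℝ} (ha : a ∈ O) (hb : b ∈ O)
    (h : Tour G' (ψ (a, x)) (ψ (b, y)) l) : Tour G (a, x) (b, y) (K * l + K) :=
  q.low (a, x) (b, y) l ha hb h

theorem cls_ind (hO : Cls O) (P : (X → F) → Prop)
    (h : ∀ c ∈ O, ∀ c' ∈ O, ∀ x, df c c' ⊆ {x} → (P c ↔ P c')) :
    ∀ c ∈ O, ∀ c' ∈ O, (P c ↔ P c') := by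
  classical
  intro c hc
  have : ∀ S : Set X, S.Finite → ∀ c' ∈ O, df c c' ⊆ S → (P c ↔ P c') := by
    intro S hS
    induction S, hS using Set.Finite.induction_on with
    | empty =>
      intro c' _ h1
      have : c = c' := by
        funext z; by_contra hz; exact h1 hz
      rw [this]
    | @insert x S _ _ ih =>
      intro c' hc' h1
      have h2 : df c' (Function.update c' x (c x)) ⊆ {x} := by
        intro z hz
        by_contra hx
        exact hz (Function.update_of_ne hx _ _).symm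
      have h3 := hO.cl c' hc' _ ((finite_singleton x).subset h2)
      refine (ih _ h3 ?_).trans (h c' hc' _ h3 x h2).symm
      intro z hz
      by_cases hx : z = x
      · subst hx; exact absurd (by simp) hz
      · have : z ∈ df c c' := by
          simp only [df, mem_ofPred_eq, Function.update_of_ne hx] at hz; exact hz
        exact (h1 this).resolve_left hx
  exact fun c' hc' => this _ (hO.fin c hc c' hc') c' hc' le_rfl

theorem step1 [Infinite X] (hG : Nice G) (hG' : Nice G') (hO : Cls O) (hO' : Cls O')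
    (q : QI G G' O O' ψ K) (hF : Sw F) (hF' : Sw F') (hs : Superlin G') (o : X') (R : ℝ) :
    ∃ d : ℝ, ∀ c ∈ O, ∀ x x', D G' o (ψ (c, x)).2 ≤ R → D G' o (ψ (c, x')).2 ≤ R →
      D G x x' ≤ d := by
  obtain ⟨φ, K', q', hi⟩ := q.inv hO
  have hK := q.pos
  obtain ⟨B, hB⟩ := thmA hG' hG hO' hO q' hF' hF hs (ε := 1 / (2 * K)) (by positivity)
  refine ⟨2 * (1 / (2 * K) * (K + 2 * R) + B + 2 * (K' * R + 2 * K')), ?_⟩
  intro c hc x x' h1 h2
  have m1 := q.maps (c, x) hc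
  have m2 := q.maps (c, x') hc
  have t1 := q.up2 hc hc (Tour.move hG.c c (le_refl (D G x x')))
  have t2 := hB _ m1 _ m2 o _ (((Tour.move hG'.c (ψ (c, x)).1 h1).trans t1).trans
    (Tour.move hG'.c (ψ (c, x')).1 h2).symm)
  have a1 := (q'.up2 m1 m1 (Tour.move hG'.c _ h1)).dist_le
  have a2 := (q'.up2 m2 m2 (Tour.move hG'.c _ h2)).dist_le
  have b1 := (hi (c, x) hc).dist_le
  have b2 := (hi (c, x') hc).dist_le
  simp only [Prod.mk.eta] at a1 a2 b1 b2
  have e1 := D_tri hG.c x (φ (ψ (c, x))).2 x'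
  have e2 := D_tri hG.c (φ (ψ (c, x))).2 (φ ((ψ (c, x)).1, o)).2 x'
  have e3 := D_tri hG.c (φ ((ψ (c, x)).1, o)).2 (φ ((ψ (c, x')).1, o)).2 x'
  have e4 := D_tri hG.c (φ ((ψ (c, x')).1, o)).2 (φ (ψ (c, x'))).2 x'
  rw [D_comm] at a1 b2
  have : 1 / (2 * K) * (R + (K * D G x x' + K) + R) = D G x x' / 2 + 1 / (2 * K) * (K + 2 * R) := by
    field_simp; ring
  linarith

theorem step2 [Infinite X] (hG : Nice G) (hG' : Nice G') (hO : Cls O) (hO' : Cls O')
    (q : QI G G' O O' ψ K) (hF : Sw F) (hF' : Sw F') (hs : Superlin G') (h1 : OneEnd G)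
    {A : Set X'} {o : X'} {R : ℝ} (hA : CutIn G' A o R) :
    ∃ ρ : ℝ, ∃ Deep : (X → F) → X → Prop, (∀ c x, ∃ z, D G x z ≤ ρ ∧ Deep c z) ∧
      ∀ c ∈ O, ∀ x x', Deep c x → Deep c x' → Same A (ψ (c, x)) (ψ (c, x')) := by
  obtain ⟨d, hd⟩ := step1 hG hG' hO hO' q hF hF' hs o (R + (K * 1 + K))
  obtain ⟨d', hd'⟩ := h1 d
  have : ∀ c, ∃ x0, c ∈ O → ∀ x, d < D G x0 x → R + (K * 1 + K) < D G' o (ψ (c, x)).2 := by
    intro c
    by_cases h : ∃ x0, D G' o (ψ (c, x0)).2 ≤ R + (K * 1 + K)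
    · obtain ⟨x0, h⟩ := h
      refine ⟨x0, fun hc x hx => ?_⟩
      by_contra hn
      exact absurd (hd c hc x0 x h (not_lt.1 hn)) (not_le.2 hx)
    · push Not at h
      exact ⟨Classical.arbitrary X, fun _ x _ => h x⟩
  choose x0 hx0 using this
  refine ⟨(2 * ⌈d'⌉₊ + 1 : ℕ), fun c x => d' < D G (x0 c) x, ?_, ?_⟩
  · intro c x
    by_cases h : d' < D G (x0 c) x
    · exact ⟨x, by rw [D_self]; positivity, h⟩
    · obtain ⟨z, hz⟩ := exists_at_dist hG.c hG.f x (2 * ⌈d'⌉₊ + 1)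
      have h2 : D G x z = (2 * ⌈d'⌉₊ + 1 : ℕ) := by unfold D; rw [hz]
      refine ⟨z, h2.le, ?_⟩
      have := D_tri hG.c x (x0 c) z
      rw [D_comm x (x0 c)] at this
      have h3 := Nat.le_ceil d'
      have h4 : (0 : ℝ) ≤ ⌈d'⌉₊ := by positivity
      push_cast at h2
      linarith
  · intro c hc x x' a1 a2
    obtain ⟨w, hw⟩ := hd' _ _ _ a1 a2
    clear a1 a2
    induction w with
    | nil => exact Same.refl _ _
    | @cons a b e hab w ih =>
      simp only [SimpleGraph.Walk.support_cons, List.mem_cons] at hw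
      refine Same.trans ?_ (ih fun z hz => hw z (Or.inr hz))
      exact hA.same hG'.c (q.up2 hc hc (Tour.move hG.c c (D_adj hab).le))
        (hx0 c hc a (hw a (Or.inl rfl)))

theorem tour_pt (hG : G.Connected) {c c' : X → F} {x a b : X} {ρ : ℝ} (h : df c c' ⊆ {x})
    (ha : D G x a ≤ ρ) (hb : D G x b ≤ ρ) : Tour G (c, a) (c', b) (2 * ρ) := by
  refine (((Cov.geo' hG ha).symm.trans (Cov.refl x)).trans (Cov.geo' hG hb)).mono ?_ (by linarith)
  intro z hz
  simpa using h hz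

/-- a one ended base against a base with a cut -/
theorem caseA [Infinite X] (hG : Nice G) (hG' : Nice G') (hO : Cls O) (hO' : Cls O')
    (q : QI G G' O O' ψ K) (hF : Sw F) (hF' : Sw F') (hs : Superlin G') (h1 : OneEnd G)
    {A : Set X'} {o : X'} {R : ℝ} (hA : CutIn G' A o R) (i1 : A.Infinite) (i2 : Aᶜ.Infinite) :
    False := by
  obtain ⟨ρ, Deep, d1, d2⟩ := step2 hG hG' hO hO' q hF hF' hs h1 hA
  have hK := q.pos
  obtain ⟨τ, t1, t2⟩ := hF
  set M := K * (2 * ρ) + K with hM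
  have hρ : 0 ≤ ρ := by
    obtain ⟨z, h, -⟩ := d1 (Classical.choice hO.ne.to_subtype).1 (Classical.arbitrary X)
    exact (D_nonneg _ _).trans h
  have hM0 : 0 ≤ M := by positivity
  let col : (X → F) → Prop := fun c => ∃ z, Deep c z ∧ (ψ (c, z)).2 ∈ A
  have hcol : ∀ c ∈ O, ∀ z, Deep c z → (col c ↔ (ψ (c, z)).2 ∈ A) := fun c hc z hz =>
    ⟨fun ⟨z', a1, a2⟩ => (d2 c hc z' z a1 hz).1.2 a2, fun h => ⟨z, hz, h⟩⟩
  have both : ∀ B : Set X', B.Infinite → ∃ p ∈ B, ∃ c ∈ O, (col c ↔ p ∈ A) := by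
    intro B hB
    obtain ⟨p, hp, hp2⟩ := hB.exists_notMem_finite (hG'.f o (R + (K + (K * ρ + K))))
    obtain ⟨a, ha⟩ := hO'.ne
    obtain ⟨⟨c, x⟩, hc, ht⟩ := q.surj (a, p) ha
    obtain ⟨z, z1, z2⟩ := d1 c x
    have := hA.same hG'.c (ht.trans (q.up2 hc hc (Tour.move hG.c c z1))) (not_le.1 hp2)
    exact ⟨p, hp, c, hc, (hcol c hc z z2).trans this.1⟩
  obtain ⟨p1, hp1, c1, hc1, e1⟩ := both A i1
  obtain ⟨p2, hp2, c2, hc2, e2⟩ := both Aᶜ i2
  refine hp2 (e2.1 ((cls_ind hO col ?_ c1 hc1 c2 hc2).1 (e1.2 hp1)))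
  intro c hc c' hc' x hx
  by_contra hn
  obtain ⟨d, hd⟩ := step1 hG hG' hO hO' q ⟨τ, t1, t2⟩ hF' hs o (R + M + M)
  have fin : ∀ c ∈ O, {y | D G' o (ψ (c, y)).2 ≤ R + M + M}.Finite := by
    intro c hc
    rcases eq_empty_or_nonempty {y | D G' o (ψ (c, y)).2 ≤ R + M + M} with h | ⟨y, hy⟩
    · rw [h]; exact finite_empty
    · exact (hG.f y d).subset fun z hz => hd c hc y z hy hz
  set r := |R| + 2 * M with hr
  set L := r + (2 * r + 2 * (Bl G' o r).ncard) + r with hL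
  obtain ⟨y, hy⟩ := (((fin c hc).union (fin c' hc')).union
    (hG.f x (ρ + (K * L + K)))).infinite_compl.nonempty
  simp only [Bl, mem_compl_iff, mem_union, mem_ofPred_eq, not_or, not_le] at hy
  have fm : ∀ c ∈ O, flip τ c {y} ∈ O := fun c hc =>
    hO.cl c hc _ (by rw [df_flip0 t1]; exact finite_singleton y)
  have key : ∀ c ∈ O, R + M + M < D G' o (ψ (c, y)).2 → ∀ z z', Deep c z →
      Deep (flip τ c {y}) z' → Same A (ψ (c, z)) (ψ (flip τ c {y}, z')) := by
    intro c hc h z z' hz hz'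
    obtain ⟨u, u1, u2⟩ := d1 c y
    obtain ⟨v, v1, v2⟩ := d1 (flip τ c {y}) y
    refine ((d2 c hc _ _ hz u2).trans ?_).trans (d2 _ (fm c hc) _ _ v2 hz')
    refine hA.same hG'.c (q.up2 hc (fm c hc)
      (tour_pt hG.c (by rw [df_flip0 t1]) u1 v1)) ?_
    have := (q.up2 hc hc (Tour.move hG.c c u1)).dist_le
    have h2 := D_tri hG'.c o (ψ (c, u)).2 (ψ (c, y)).2
    rw [D_comm (ψ (c, u)).2] at h2
    have : 0 ≤ K * ρ := by positivity
    linarith
  obtain ⟨x1, a1, b1⟩ := d1 c x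
  obtain ⟨x2, a2, b2⟩ := d1 c' x
  obtain ⟨x3, a3, b3⟩ := d1 (flip τ c {y}) x
  obtain ⟨x4, a4, b4⟩ := d1 (flip τ c' {y}) x
  have s13 := key c hc hy.1.1 _ _ b1 b3
  have s24 := key c' hc' hy.1.2 _ _ b2 b4
  rw [hcol c hc _ b1, hcol c' hc' _ b2] at hn
  have t12 := q.up2 hc hc' (tour_pt hG.c hx a1 a2)
  have t34 := q.up2 (fm c hc) (fm c' hc') (tour_pt hG.c (by rw [df_flip2 t2]; exact hx) a3 a4)
  have hR := le_abs_self R
  have n1 : D G' o (ψ (c, x1)).2 ≤ R + M := by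
    by_contra h
    exact hn (hA.same hG'.c t12 (not_le.1 h)).1.symm
  have n3 : D G' o (ψ (flip τ c {y}, x3)).2 ≤ R + M := by
    by_contra h
    exact hn (s13.1.symm.trans ((hA.same hG'.c t34 (not_le.1 h)).1.symm.trans s24.1))
  have t13 : Tour G' (ψ (c, x1)) (ψ (flip τ c {y}, x3)) L := by
    refine (((Cov.geo' hG'.c (l := r) (by linarith)).symm.trans
      (ball_cov hG'.c o (r := r) (by positivity) (hG'.f _ _))).trans
      (Cov.geo' hG'.c (l := r) (by linarith))).mono ?_ le_rfl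
    intro z hz
    refine Or.inl (Or.inr ?_)
    have z1 := s13.2 z hz
    have z2 : z ∉ df (ψ (c', x2)).1 (ψ (flip τ c' {y}, x4)).1 := fun h =>
      hn (z1.symm.trans (s24.2 z h))
    show D G' o z ≤ r
    by_cases h : z ∈ df (ψ (c, x1)).1 (ψ (c', x2)).1
    · linarith [t12.mem_dist h, D_tri hG'.c o (ψ (c, x1)).2 z]
    · have h3 : z ∈ df (ψ (flip τ c {y}, x3)).1 (ψ (flip τ c' {y}, x4)).1 := by
        simp only [df, mem_ofPred_eq, not_not] at h z2 hz ⊢
        intro h4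
        exact hz (h.trans (z2.trans h4.symm))
      linarith [t34.mem_dist h3, D_tri hG'.c o (ψ (flip τ c {y}, x3)).2 z]
  have := (q.low2 hc (fm c hc) t13).mem_dist (z := y) (by
    show y ∈ df c (flip τ c {y})
    rw [df_flip0 t1]; rfl)
  simp only at this
  linarith [D_tri hG.c x x1 y, hy.2]

end Pool.Agent.Lib.MP_a15413_al
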