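import Pool.Agent.Lib.MP_a15413_al.Wreath

set_option autoImplicit false

namespace Pool.Agent.Lib.MP_a15413_al

open Set Cardinal

variable {X : Type} {G : SimpleGraph X}

theorem sup_ends (hG : Nice G) : ⨆ K : Finset X,
    {C : G.ComponentCompl (K : Set X) | C.supp.Infinite}.encard = toENat #(En G) := by
  classical
  refine le_antisymm (iSup_le fun K => ?_) ?_
  · refine (encard_le_encard (t := (cmp · K) '' univ) fun C hC => ?_).trans
      ((encard_image_le _ _).trans_eq (encard_univ _))
    obtain ⟨e, L, hL⟩ := end_of_ic hG (comp_ic hG C hC)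
    refine ⟨e, trivial, by_contra fun h => ?_⟩
    obtain ⟨x, hx⟩ := (cmp_inf e (K ∪ L)).nonempty
    exact Set.disjoint_left.1 (SimpleGraph.ComponentCompl.pairwise_disjoint h)
      (cmp_sub e Finset.subset_union_left hx) (hL (cmp_sub e Finset.subset_union_right hx))
  · have key : ∀ s : Finset (En G), (s.card : ℕ∞) ≤ ⨆ K : Finset X,
        {C : G.ComponentCompl (K : Set X) | C.supp.Infinite}.encard := fun s => by
      choose k hk using fun (p : En G × En G) (h : p.1 ≠ p.2) => sep h
      refine le_iSup_of_le ((s ×ˢ s).biUnion fun p => if h : p.1 ≠ p.2 then k p h else ∅) ?_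
      rw [← encard_coe_eq_coe_finsetCard]
      refine encard_le_encard_of_injOn (f := (cmp · _)) (fun e _ => cmp_inf e _)
        fun a ha b hb h => by_contra fun hn => ?_
      have := hk (a, b) hn _ (le_of_eq_of_le (dif_pos hn).symm (Finset.subset_biUnion_of_mem
        (fun p : En G × En G => if h : p.1 ≠ p.2 then k p h else ∅) (Finset.mk_mem_product ha hb)))
      simp only at h this
      rw [h, disjoint_self] at this
      exact cmp_inf b _ (finite_empty.subset this.le)
    cases finite_or_infinite (En G) with
    | inl h =>
      have := Fintype.ofFinite (En G)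
      simpa using key Finset.univ
    | inr h =>
      refine le_top.trans (ENat.eq_top_iff_forall_ge.2 fun n => ?_).ge
      obtain ⟨s, rfl⟩ := Infinite.exists_subset_card_eq (En G) n
      exact key s

theorem cay_eq {H : Type} [Group H] (T : Finset H) : SimpleGraph.mulCayley (T : Set H) = Cay T := by
  simp [SimpleGraph.mulCayley, Cay, eq_comm]

end Pool.Agent.Lib.MP_a15413_al
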