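import Pool.Agent.Lib.MP_a15413_al.CaseA

set_option autoImplicit false

namespace Pool.Agent.Lib.MP_a15413_al

open Set Filter Topology

variable {X : Type} {G : SimpleGraph X}

/-- vertex transitive -/
def VT (G : SimpleGraph X) : Prop := ∀ p q, ∃ e : G ≃g G, e p = q

theorem iso_D_le (hG : G.Connected) (e : G ≃g G) (a b : X) : D G (e a) (e b) ≤ D G a b := by
  obtain ⟨w, hw⟩ := hG.exists_walk_length_eq_dist a b
  have := SimpleGraph.dist_le (w.map e.toHom)
  rw [SimpleGraph.Walk.length_map, hw] at this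
  unfold D; exact_mod_cast this

theorem iso_D (hG : G.Connected) (e : G ≃g G) (a b : X) : D G (e a) (e b) = D G a b :=
  le_antisymm (iso_D_le hG e a b) (by simpa using iso_D_le hG e.symm (e a) (e b))

theorem VT.ball (hG : G.Connected) (h : VT G) (p q : X) (r : ℝ) :
    (Bl G p r).ncard = (Bl G q r).ncard := by
  obtain ⟨e, rfl⟩ := h p q
  rw [← ncard_image_of_injective (Bl G p r) e.injective]
  congr 1
  ext z
  obtain ⟨z, rfl⟩ := e.surjective z
  simp [Bl, iso_D hG]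

theorem CutIn.mono (hG : G.Connected) {A : Set X} {o o' : X} {R R' : ℝ} (h : CutIn G A o R)
    (hR : D G o' o + R ≤ R') : CutIn G A o' R' := fun a b h1 h2 h3 => by
  linarith [h a b h1 h2 h3, D_tri hG o' o a]

theorem CutIn.compl (hG : G.Connected) {A : Set X} {o : X} {R : ℝ} (h : CutIn G A o R) :
    CutIn G Aᶜ o (R + 1) := fun a b h1 h2 h3 => by
  linarith [h b a h1.symm (not_not.1 h3) h2, D_tri hG o b a, D_adj h1.symm]

theorem CutIn.image (hG : G.Connected) {A : Set X} {o : X} {R : ℝ} (h : CutIn G A o R)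
    (e : G ≃g G) : CutIn G (e '' A) (e o) R := by
  rintro _ b h1 ⟨a, ha, rfl⟩ h3
  obtain ⟨b, rfl⟩ := e.surjective b
  rw [iso_D hG]
  exact h a b (e.map_adj_iff.1 h1) ha fun hb => h3 ⟨b, hb, rfl⟩

theorem CutIn.near (hG : G.Connected) {A : Set X} {p : X} {R : ℝ} (h : CutIn G A p R)
    {o z : X} (hz : R + D G o z < D G p o) : z ∈ A ↔ o ∈ A := by
  obtain ⟨w, h1, -⟩ := Cov.geo hG o z
  refine h.walk w (fun y hy => ?_) z w.end_mem_support
  have := supp_dist w hy
  have := D_tri hG p y o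
  rw [D_comm y] at this
  linarith

theorem parent_ind (hG : G.Connected) (p : X) (P : X → Prop) (h0 : P p)
    (h : ∀ y z, G.Adj y z → D G p y + 1 = D G p z → P y → P z) (z : X) : P z := by
  induction hn : G.dist p z generalizing z with
  | zero => rw [hG.dist_eq_zero_iff] at hn; exact hn ▸ h0
  | succ n ih =>
    obtain ⟨y, h1, h2⟩ := exists_parent hG (p := p) (z := z) (by rintro rfl; simp at hn)
    exact h y z h1 (by unfold D; exact_mod_cast h2) (ih y (by omega))

theorem sub_of_far (hG : G.Connected) {B E : Set X} {p o : X} {R R' : ℝ} (hB : CutIn G B p R)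
    (hE : CutIn G E o R') (hp : p ∈ E) (ho : o ∉ B) (hd : R + R' < D G p o) : B ⊆ E := by
  have := parent_ind hG p (fun z => (z ∈ B ∨ D G p z ≤ R) → z ∈ E) (fun _ => hp) (by
    intro y z h1 h2 ih hz
    have hy : y ∈ B ∨ D G p y ≤ R := by
      by_contra hn
      push Not at hn
      rcases hz with hz | hz
      · linarith [hB z y h1.symm hz hn.1]
      · linarith
    by_contra hn
    have h3 := hE y z h1 (ih hy) hn
    rcases hy with hy | hy
    · exact ho ((hB.near hG (by linarith)).1 hy)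
    · have := D_tri hG p y o
      rw [D_comm y] at this
      linarith)
  exact fun z hz => this z (Or.inl hz)

theorem exit_pt (hG : G.Connected) {B : Set X} {p o : X} {R : ℝ} (hB : CutIn G B p R) (ho : o ∉ B)
    (z : X) : z ∈ B → ∃ y, D G p y ≤ R ∧ D G o y + D G y z ≤ D G o z := by
  refine parent_ind hG o (fun z => z ∈ B → ∃ y, D G p y ≤ R ∧ D G o y + D G y z ≤ D G o z)
    (fun h => absurd h ho) ?_ z
  intro w z h1 h2 ih hz
  by_cases hw : w ∈ B
  · obtain ⟨y, a1, a2⟩ := ih hw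
    exact ⟨y, a1, by linarith [D_tri hG y w z, D_adj h1]⟩
  · exact ⟨z, hB z w h1.symm hz hw, by simp⟩

/-- infinite cut sets -/
def IC (G : SimpleGraph X) (A : Set X) : Prop := A.Infinite ∧ ∃ o R, CutIn G A o R

def Multi2 (G : SimpleGraph X) : Prop := ∃ A B, IC G A ∧ IC G B ∧ Disjoint A B

def Multi3 (G : SimpleGraph X) : Prop :=
  ∃ A B C, IC G A ∧ IC G B ∧ IC G C ∧ Disjoint A B ∧ Disjoint A C ∧ Disjoint B C

theorem IC.cut (hG : G.Connected) {A : Set X} (h : IC G A) (o : X) :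
    ∃ R0, ∀ R ≥ R0, CutIn G A o R := by
  obtain ⟨-, o', R, h⟩ := h
  exact ⟨_, fun R' hR => h.mono hG hR⟩

theorem split (hG : Nice G) (hv : VT G) (h : Multi3 G) {E : Set X} (hE : IC G E) :
    ∃ B C, IC G B ∧ IC G C ∧ Disjoint B C ∧ B ⊆ E ∧ C ⊆ E := by
  obtain ⟨A, B, C, hA, hB, hC, d1, d2, d3⟩ := h
  obtain ⟨i, o, R', hE⟩ := hE
  obtain ⟨a, ha⟩ := hA.cut hG.c o
  obtain ⟨b, hb⟩ := hB.cut hG.c o
  obtain ⟨c, hc⟩ := hC.cut hG.c o
  set R := max a (max b c)
  obtain ⟨p, hp, hp2⟩ := i.exists_notMem_finite (hG.f o (R + R'))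
  have hd : R + R' < D G p o := by rw [D_comm]; exact not_le.1 hp2
  obtain ⟨e, rfl⟩ := hv o p
  have key : ∀ S, IC G S → CutIn G S o R → o ∉ e '' S → IC G (e '' S) ∧ e '' S ⊆ E :=
    fun S h1 h2 h3 => ⟨⟨h1.1.image e.injective.injOn, _, _, h2.image hG.c e⟩,
      sub_of_far hG.c (h2.image hG.c e) hE hp h3 hd⟩
  have kA := key A hA (ha R (by simp [R]))
  have kB := key B hB (hb R (by simp [R]))
  have kC := key C hC (hc R (by simp [R]))
  have dj : ∀ S T : Set X, Disjoint S T → Disjoint (e '' S) (e '' T) := fun S T h =>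
    (disjoint_image_iff e.injective).2 h
  by_cases h1 : o ∈ e '' A
  · have h2 := disjoint_left.1 (dj _ _ d1) h1
    have h3 := disjoint_left.1 (dj _ _ d2) h1
    exact ⟨_, _, (kB h2).1, (kC h3).1, dj _ _ d3, (kB h2).2, (kC h3).2⟩
  · by_cases h2 : o ∈ e '' B
    · have h3 := disjoint_left.1 (dj _ _ d3) h2
      exact ⟨_, _, (kA h1).1, (kC h3).1, dj _ _ d2, (kA h1).2, (kC h3).2⟩
    · exact ⟨_, _, (kA h1).1, (kB h2).1, dj _ _ d1, (kA h1).2, (kB h2).2⟩

theorem ic_univ [Infinite X] : IC G univ :=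
  ⟨infinite_univ, Classical.arbitrary X, 0, fun _ _ _ _ h => absurd (mem_univ _) h⟩

theorem Multi3.inf (h : Multi3 G) : Infinite X := by
  obtain ⟨A, -, -, hA, -⟩ := h
  exact infinite_univ_iff.1 (hA.1.mono (subset_univ _))

/-- a binary scheme of cuts -/
theorem scheme (hG : Nice G) (hv : VT G) (h : Multi3 G) :
    ∃ f : Bool → Set X → Set X, ∀ E, IC G E →
      (∀ b, IC G (f b E) ∧ f b E ⊆ E) ∧ Disjoint (f true E) (f false E) := by
  have : ∀ E, ∃ B C, IC G E → IC G B ∧ IC G C ∧ Disjoint B C ∧ B ⊆ E ∧ C ⊆ E := by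
    intro E
    by_cases hE : IC G E
    · obtain ⟨B, C, h⟩ := split hG hv h hE
      exact ⟨B, C, fun _ => h⟩
    · exact ⟨∅, ∅, fun h => absurd h hE⟩
  choose B C hBC using this
  refine ⟨fun b E => bif b then B E else C E, fun E hE => ?_⟩
  obtain ⟨h1, h2, h3, h4, h5⟩ := hBC E hE
  exact ⟨fun b => by cases b <;> simp [*], h3⟩

theorem cut_sphere (hG : Nice G) {A : Set X} {o : X} {R : ℝ} (hi : A.Infinite)
    (h : CutIn G A o R) (n : ℕ) (hn : R < n) : ∃ z ∈ A, D G o z = n := by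
  obtain ⟨z, hz, hz2⟩ := hi.exists_notMem_finite (hG.f o n)
  refine parent_ind hG.c o (fun z => z ∈ A → n ≤ D G o z → ∃ z ∈ A, D G o z = n) ?_ ?_ z hz
    (not_le.1 hz2).le
  · intro h1 h2
    exact ⟨o, h1, le_antisymm (by simp) h2⟩
  · intro y z h1 h2 ih hz h3
    rcases h3.eq_or_lt with h3 | h3
    · exact ⟨z, hz, h3.symm⟩
    · refine ih ?_ ?_
      · by_contra hy
        linarith [h z y h1.symm hz hy]
      · unfold D at h2 h3 ⊢
        have h4 : G.dist o y + 1 = G.dist o z := by exact_mod_cast h2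
        have h5 : n < G.dist o z := by exact_mod_cast h3
        exact_mod_cast (by omega : n ≤ G.dist o y)

/-- large spheres give superlinear growth -/
theorem superlin_of_spheres (hG : Nice G) (hv : VT G)
    (h : ∀ k : ℕ, ∃ o, ∃ n0 : ℕ, ∀ n ≥ n0, ∃ z : Fin k → X, Function.Injective z ∧
      ∀ i, D G o (z i) = n) : Superlin G := by
  intro k
  obtain ⟨o, n0, h⟩ := h ⌈2 * k⌉₊
  have : Nonempty X := ⟨o⟩
  choose! z hz1 hz2 using h
  refine ⟨2 * n0 + 2, fun r hr p => ?_⟩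
  rw [hv.ball hG.c p o]
  have hr0 : 0 ≤ r := le_trans (by positivity) hr
  have h1 : ((Finset.Icc n0 ⌊r⌋₊ ×ˢ (Finset.univ : Finset (Fin ⌈2 * k⌉₊)) : Finset _) :
      Set (ℕ × Fin ⌈2 * k⌉₊)).ncard ≤ (Bl G o r).ncard := by
    refine ncard_le_ncard_of_injOn (fun x => z x.1 x.2) ?_ ?_ (hG.f o r)
    · rintro ⟨n, i⟩ hx
      simp only [Finset.coe_product, Finset.coe_Icc, mem_prod, mem_Icc] at hx
      show D G o _ ≤ r
      rw [hz2 n hx.1.1]
      exact (Nat.cast_le.2 hx.1.2).trans (Nat.floor_le hr0)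
    · rintro ⟨n, i⟩ hx ⟨m, j⟩ hy hxy
      simp only [Finset.coe_product, Finset.coe_Icc, mem_prod, mem_Icc] at hx hy hxy
      have : n = m := by
        have h2 := hz2 n hx.1.1 i
        rw [hxy, hz2 m hy.1.1] at h2
        exact_mod_cast h2.symm
      subst this
      rw [hz1 n hx.1.1 hxy]
  rw [ncard_coe_finset, Finset.card_product, Nat.card_Icc, Finset.card_univ, Fintype.card_fin] at h1
  have h2 := Nat.lt_floor_add_one r
  have h3 : n0 ≤ ⌊r⌋₊ + 1 := by
    have : (n0 : ℝ) ≤ ⌊r⌋₊ + 1 := by linarith [(by positivity : (0 : ℝ) ≤ n0)]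
    exact_mod_cast this
  have h4 : ((⌊r⌋₊ + 1 - n0 : ℝ)) * ⌈2 * k⌉₊ ≤ (Bl G o r).ncard := by
    have : (((⌊r⌋₊ + 1 - n0) * ⌈2 * k⌉₊ : ℕ) : ℝ) ≤ (Bl G o r).ncard := by exact_mod_cast h1
    rwa [Nat.cast_mul, Nat.cast_sub h3, Nat.cast_add, Nat.cast_one] at this
  have h5 := Nat.le_ceil (2 * k)
  have h6 : (0 : ℝ) ≤ ⌈2 * k⌉₊ := by positivity
  nlinarith

theorem Multi3.superlin (hG : Nice G) (hv : VT G) (h : Multi3 G) : Superlin G := by
  obtain ⟨f, hf⟩ := scheme hG hv h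
  have := h.inf
  let A : ℕ → Set X := fun n => (f true)^[n] univ
  have hA : ∀ n, IC G (A n) := by
    intro n
    induction n with
    | zero => exact ic_univ
    | succ n ih => simp only [A, Function.iterate_succ_apply']; exact ((hf _ ih).1 _).1
  have hS : ∀ n, A (n + 1) = f true (A n) := fun n => Function.iterate_succ_apply' _ _ _
  have anti : Antitone A := antitone_nat_of_succ_le fun n => by
    rw [hS]; exact ((hf _ (hA n)).1 _).2
  have dj : ∀ m n, m < n → Disjoint (f false (A m)) (f false (A n)) := fun m n hmn =>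
    (hf _ (hA m)).2.symm.mono_right (((hf _ (hA n)).1 _).2.trans (hS m ▸ anti hmn))
  refine superlin_of_spheres hG hv fun k => ?_
  let o := Classical.arbitrary X
  choose R hR using fun n => ((hf _ (hA n)).1 false).1.cut hG.c o
  obtain ⟨b, hb⟩ := (finite_range fun i : Fin k => R i).bddAbove
  refine ⟨o, ⌈b⌉₊ + 1, fun n hn => ?_⟩
  have hbn : b < n := by
    have : ((⌈b⌉₊ + 1 : ℕ) : ℝ) ≤ n := by exact_mod_cast hn
    push_cast at this
    linarith [Nat.le_ceil b]
  choose z hz1 hz2 using fun i : Fin k => cut_sphere hG ((hf _ (hA i)).1 false).1.1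
    (hR i b (hb ⟨i, rfl⟩)) n hbn
  refine ⟨z, fun i j hij => ?_, hz2⟩
  by_contra hne
  rcases lt_or_gt_of_ne hne with h | h
  · exact disjoint_left.1 (dj i j h) (hz1 i) (hij ▸ hz1 j)
  · exact disjoint_left.1 (dj j i h) (hz1 j) (hij ▸ hz1 i)

end Pool.Agent.Lib.MP_a15413_al
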