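import Pool.Agent.Lib.MP_a15413_al.Cuts

set_option autoImplicit false

namespace Pool.Agent.Lib.MP_a15413_al

open Set Filter Topology

variable {X : Type} {G : SimpleGraph X}

theorem Multi2.cut (hG : G.Connected) (h : Multi2 G) (o : X) :
    ∃ A R, CutIn G A o R ∧ CutIn G Aᶜ o R ∧ A.Infinite ∧ Aᶜ.Infinite := by
  obtain ⟨A, B, hA, hB, d⟩ := h
  obtain ⟨R, hR⟩ := hA.cut hG o
  exact ⟨A, R + 1, hR _ (by linarith), (hR R le_rfl).compl hG, hA.1,
    hB.1.mono d.symm.subset_compl_right⟩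

theorem side_diam (hG : Nice G) (h3 : ¬ Multi3 G) {o : X} {R : ℝ}
    (hp : ∀ p, ∃ B, CutIn G B p R ∧ CutIn G Bᶜ p R ∧ B.Infinite ∧ o ∉ B)
    {A : Set X} (c1 : CutIn G A o R) (c2 : CutIn G Aᶜ o R) (i2 : Aᶜ.Infinite) {p q : X}
    (h1 : p ∈ A) (h2 : q ∈ A) (hd : D G o p = D G o q) (hR : 2 * R < D G o p) :
    D G p q ≤ 2 * R := by
  by_contra hn
  push Not at hn
  obtain ⟨B, b1, b2, b3, b4⟩ := hp p
  obtain ⟨C, e1, e2, e3, e4⟩ := hp q
  have sB : B ⊆ A := sub_of_far hG.c b1 c1 h1 b4 (by rw [D_comm]; linarith)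
  have sC : C ⊆ A := sub_of_far hG.c e1 c1 h2 e4 (by rw [D_comm]; linarith)
  have qB : q ∉ B := fun h => by
    obtain ⟨y, y1, y2⟩ := exit_pt hG.c b1 b4 q h
    have := D_tri hG.c o y p
    rw [D_comm y] at this
    linarith [D_tri hG.c p y q]
  have pC : p ∉ C := fun h => by
    obtain ⟨y, y1, y2⟩ := exit_pt hG.c e1 e4 p h
    have := D_tri hG.c o y q
    rw [D_comm y] at this
    have := D_tri hG.c q y p
    rw [D_comm q p] at this
    linarith
  have sBC : B ⊆ Cᶜ := sub_of_far hG.c b1 e2 pC qB (by linarith)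
  exact h3 ⟨B, C, Aᶜ, ⟨b3, _, _, b1⟩, ⟨e3, _, _, e1⟩, ⟨i2, _, _, c2⟩,
    subset_compl_iff_disjoint_right.1 sBC, disjoint_compl_right.mono_left sB,
    disjoint_compl_right.mono_left sC⟩

theorem not_superlin (hG : Nice G) (hv : VT G) (h2 : Multi2 G) (h3 : ¬ Multi3 G) :
    ¬ Superlin G := by
  obtain ⟨o⟩ := hG.c.nonempty
  obtain ⟨A, R, c1, c2, i1, i2⟩ := h2.cut hG.c o
  have hp : ∀ p, ∃ B, CutIn G B p R ∧ CutIn G Bᶜ p R ∧ B.Infinite ∧ o ∉ B := by
    intro p
    obtain ⟨e, rfl⟩ := hv o p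
    have a1 := c1.image hG.c e
    have a2 := c2.image hG.c e
    have e1 : e '' Aᶜ = (e '' A)ᶜ := image_compl_eq e.bijective
    by_cases h : o ∈ e '' A
    · refine ⟨e '' Aᶜ, a2, by rwa [e1, compl_compl], i2.image e.injective.injOn, ?_⟩
      rw [e1]; exact not_not.2 h
    · exact ⟨e '' A, a1, by rwa [← e1], i1.image e.injective.injOn, h⟩
  set b := (Bl G o (2 * R)).ncard with hb
  have side : ∀ S : Set X, CutIn G S o R → CutIn G Sᶜ o R → Sᶜ.Infinite → ∀ n : ℝ, 2 * R < n →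
      {z | z ∈ S ∧ D G o z = n}.ncard ≤ b := by
    intro S s1 s2 s3 n hn
    rcases eq_empty_or_nonempty {z | z ∈ S ∧ D G o z = n} with h | ⟨p, hp1, hp2⟩
    · rw [h]; simp
    · rw [hb, hv.ball hG.c o p]
      exact ncard_le_ncard (fun q hq => side_diam hG h3 hp s1 s2 s3 hp1 hq.1 (hp2.trans hq.2.symm)
        (by rwa [hp2])) (hG.f _ _)
  have step : ∀ n : ℕ, (Bl G o n).ncard ≤ b + 1 + 2 * b * n := by
    intro n
    induction n with
    | zero =>
      have : Bl G o (0 : ℕ) ⊆ {o} := by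
        intro z hz
        have h1 : D G o z ≤ (0 : ℕ) := hz
        unfold D at h1
        have h2 : G.dist o z = 0 := by exact_mod_cast Nat.le_zero.1 (by exact_mod_cast h1)
        exact (hG.c.dist_eq_zero_iff.1 h2).symm
      have := ncard_le_ncard this (finite_singleton o)
      rw [ncard_singleton] at this
      omega
    | succ n ih =>
      by_cases hn : 2 * R < (n + 1 : ℕ)
      · have h1 := side A c1 c2 i2 _ hn
        have h2 := side Aᶜ c2 (by rwa [compl_compl]) (by rwa [compl_compl]) _ hn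
        have : Bl G o (n + 1 : ℕ) ⊆ Bl G o n ∪ ({z | z ∈ A ∧ D G o z = (n + 1 : ℕ)} ∪
            {z | z ∈ Aᶜ ∧ D G o z = (n + 1 : ℕ)}) := by
          intro z hz
          have h1 : D G o z ≤ (n + 1 : ℕ) := hz
          rcases h1.eq_or_lt with h | h
          · right
            by_cases hA : z ∈ A
            · exact Or.inl ⟨hA, h⟩
            · exact Or.inr ⟨hA, h⟩
          · left
            show D G o z ≤ n
            unfold D at h ⊢
            have : G.dist o z < n + 1 := by exact_mod_cast h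
            exact_mod_cast Nat.lt_succ_iff.1 this
        have h4 := ncard_le_ncard this ((hG.f _ _).union (((hG.f o (n + 1 : ℕ)).subset
          fun z hz => hz.2.le).union ((hG.f o (n + 1 : ℕ)).subset fun z hz => hz.2.le)))
        have h5 := h4.trans ((ncard_union_le _ _).trans (Nat.add_le_add_left (ncard_union_le _ _) _))
        rw [mul_add]
        omega
      · have : (Bl G o (n + 1 : ℕ)).ncard ≤ b :=
          ncard_le_ncard (fun z hz => le_trans hz (not_lt.1 hn)) (hG.f _ _)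
        omega
  intro hs
  obtain ⟨r0, hr0⟩ := hs (3 * b + 2)
  have h1 := hr0 (⌈r0⌉₊ + 1 : ℕ) (by push_cast; linarith [Nat.le_ceil r0]) o
  have h2 := step (⌈r0⌉₊ + 1)
  have h4 : (3 * b + 2) * (⌈r0⌉₊ + 1) ≤ (Bl G o (⌈r0⌉₊ + 1 : ℕ)).ncard := by exact_mod_cast h1
  nlinarith

theorem oneEnd_at [Infinite X] (hG : Nice G) (h2 : ¬ Multi2 G) (o : X) (r : ℝ) :
    ∃ r' : ℝ, ∀ x x', r' < D G o x → r' < D G o x' →
      ∃ w : G.Walk x x', ∀ z ∈ w.support, r < D G o z := by
  let C : X → Set X := fun x => {y | ∃ w : G.Walk x y, ∀ z ∈ w.support, |r| < D G o z}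
  have cut : ∀ x, CutIn G (C x) o (|r| + 1) := by
    rintro x a b hab ⟨w, hw⟩ hb
    by_contra hn
    refine hb ⟨w.concat hab, fun z hz => ?_⟩
    simp only [SimpleGraph.Walk.support_concat, List.mem_append,
      List.mem_singleton] at hz
    rcases hz with hz | rfl
    · exact hw z hz
    · linarith [D_tri hG.c o z a, D_adj hab.symm]
  have hN : (⋃ y ∈ {y | y ∈ Bl G o (|r| + 1) ∧ (C y).Finite}, C y).Finite :=
    ((hG.f o _).subset fun y hy => hy.1).biUnion fun y hy => hy.2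
  obtain ⟨r', hr'⟩ := (hN.image (D G o)).bddAbove
  have desc : ∀ x, |r| < D G o x → ∃ y ∈ Bl G o (|r| + 1), x ∈ C y := by
    intro x
    refine parent_ind hG.c o (fun x => |r| < D G o x → ∃ y ∈ Bl G o (|r| + 1), x ∈ C y) ?_ ?_ x
    · intro h; rw [D_self] at h; exact absurd h (not_lt.2 (abs_nonneg r))
    · intro y z h1 h2 ih hz
      by_cases h : D G o z ≤ |r| + 1
      · exact ⟨z, h, .nil, by simpa using hz⟩
      · obtain ⟨u, u1, u2⟩ := ih (by linarith)
        refine ⟨u, u1, ?_⟩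
        by_contra hn
        linarith [cut u y z h1 u2 hn, D_tri hG.c o y z, show D G o y ≤ |r| from by
          by_contra h4
          obtain ⟨w, hw⟩ := u2
          refine hn ⟨w.concat h1, fun t ht => ?_⟩
          simp only [SimpleGraph.Walk.support_concat, List.mem_append,
            List.mem_singleton] at ht
          rcases ht with ht | rfl
          · exact hw t ht
          · exact hz]
  have cof : ∀ x, max r' |r| < D G o x → ∃ y, x ∈ C y ∧ (C y)ᶜ.Finite := by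
    intro x hx
    obtain ⟨y, y1, y2⟩ := desc x ((le_max_right _ _).trans_lt hx)
    refine ⟨y, y2, ?_⟩
    by_contra hn
    refine h2 ⟨C y, (C y)ᶜ, ⟨fun hf => ?_, _, _, cut y⟩, ⟨hn, _, _, (cut y).compl hG.c⟩,
      disjoint_compl_right⟩
    have := hr' ⟨x, mem_biUnion (s := {y | y ∈ Bl G o (|r| + 1) ∧ (C y).Finite}) ⟨y1, hf⟩ y2, rfl⟩
    linarith [le_max_left r' |r|]
  refine ⟨max r' |r|, fun x x' hx hx' => ?_⟩
  obtain ⟨y, ⟨w1, a1⟩, y2⟩ := cof x hx
  obtain ⟨y', ⟨w2, a2⟩, y2'⟩ := cof x' hx'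
  obtain ⟨t, ht⟩ := (y2.union y2').infinite_compl.nonempty
  simp only [compl_union, compl_compl, mem_inter_iff] at ht
  obtain ⟨⟨w3, a3⟩, w4, a4⟩ := ht
  refine ⟨w1.reverse.append (w3.append (w4.reverse.append w2)), fun z hz => (le_abs_self r).trans_lt ?_⟩
  simp only [SimpleGraph.Walk.mem_support_append_iff, SimpleGraph.Walk.support_reverse,
    List.mem_reverse] at hz
  rcases hz with h | h | h | h
  exacts [a1 z h, a3 z h, a4 z h, a2 z h]

theorem transport (hG : G.Connected) (hv : VT G) (o p : X) (P : ℝ → Prop) (Q : ℝ → Prop)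
    (h : ∀ x x', P (D G o x) → P (D G o x') → ∃ w : G.Walk x x', ∀ z ∈ w.support, Q (D G o z)) :
    ∀ x x', P (D G p x) → P (D G p x') → ∃ w : G.Walk x x', ∀ z ∈ w.support, Q (D G p z) := by
  obtain ⟨e, rfl⟩ := hv o p
  intro x x' hx hx'
  obtain ⟨x, rfl⟩ := e.surjective x
  obtain ⟨x', rfl⟩ := e.surjective x'
  obtain ⟨w, hw⟩ := h x x' (by rwa [← iso_D hG e]) (by rwa [← iso_D hG e])
  refine ⟨w.map e.toHom, fun z hz => ?_⟩
  rw [SimpleGraph.Walk.support_map, List.mem_map] at hz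
  obtain ⟨z, hz, rfl⟩ := hz
  have := hw z hz
  rwa [← iso_D hG e] at this

theorem oneEnd [Infinite X] (hG : Nice G) (hv : VT G) (h2 : ¬ Multi2 G) : OneEnd G := by
  intro r
  obtain ⟨o⟩ := hG.c.nonempty
  obtain ⟨r', h⟩ := oneEnd_at hG h2 o r
  exact ⟨r', fun p => transport hG.c hv o p (fun t => r' < t) (fun t => r < t) h⟩

theorem oneEnd_bd [Infinite X] (hG : Nice G) (hv : VT G) (h2 : ¬ Multi2 G) (r : ℝ) :
    ∃ m : ℕ, ∃ L : ℝ, ∀ p x x', D G p x = m → D G p x' = m →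
      ∃ w : G.Walk x x', ∀ z ∈ w.support, r < D G p z ∧ D G p z ≤ L := by
  obtain ⟨o⟩ := hG.c.nonempty
  obtain ⟨r', h⟩ := oneEnd_at hG h2 o r
  have hm : r' < (⌈r'⌉₊ + 1 : ℕ) := by push_cast; linarith [Nat.le_ceil r']
  set m := ⌈r'⌉₊ + 1
  have : ∀ x : X × X, ∃ l : ℝ, D G o x.1 = m → D G o x.2 = m →
      ∃ w : G.Walk x.1 x.2, ∀ z ∈ w.support, r < D G o z ∧ D G o z ≤ l := by
    intro x
    by_cases hx : D G o x.1 = m ∧ D G o x.2 = m
    · obtain ⟨w, hw⟩ := h x.1 x.2 (by linarith [hx.1]) (by linarith [hx.2])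
      exact ⟨m + w.length, fun _ _ => ⟨w, fun z hz => ⟨hw z hz, by
        linarith [supp_dist w hz, D_tri hG.c o x.1 z, hx.1]⟩⟩⟩
    · exact ⟨0, fun h1 h2 => absurd ⟨h1, h2⟩ hx⟩
  choose l hl using this
  obtain ⟨L, hL⟩ := (((hG.f o m).prod (hG.f o m)).image l).bddAbove
  refine ⟨m, L, fun p => transport hG.c hv o p (fun t => t = m) (fun t => r < t ∧ t ≤ L) ?_⟩
  intro x x' hx hx'
  obtain ⟨w, hw⟩ := hl (x, x') hx hx'
  exact ⟨w, fun z hz => ⟨(hw z hz).1, (hw z hz).2.trans (hL ⟨(x, x'), ⟨hx.le, hx'.le⟩, rfl⟩)⟩⟩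

theorem geo_split (hG : G.Connected) (o : X) (a : ℕ) : ∀ (b : ℕ) (q : X), G.dist o q = a + b →
    ∃ p, G.dist o p = a ∧ G.dist p q = b := by
  intro b
  induction b with
  | zero => intro q h; exact ⟨q, h, by simp⟩
  | succ b ih =>
    intro q h
    obtain ⟨y, h1, h2⟩ := exists_parent hG (p := o) (z := q) (by rintro rfl; simp at h)
    obtain ⟨p, p1, p2⟩ := ih y (by omega)
    refine ⟨p, p1, ?_⟩
    have h3 : G.dist p q ≤ G.dist p y + G.dist y q := hG.dist_triangle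
    have h4 : G.dist o q ≤ G.dist o p + G.dist p q := hG.dist_triangle
    rw [SimpleGraph.dist_eq_one_iff_adj.2 h1] at h3
    omega

theorem walk_ivt (hG : G.Connected) (o : X) (n : ℕ) {a b : X} (w : G.Walk a b)
    (ha : G.dist o a ≤ n) (hb : n ≤ G.dist o b) : ∃ z ∈ w.support, G.dist o z = n := by
  induction w with
  | nil => exact ⟨_, by simp, le_antisymm ha hb⟩
  | @cons a c b h w ih =>
    rcases ha.eq_or_lt with h1 | h1
    · exact ⟨a, by simp, h1⟩
    · have h3 : G.dist o c ≤ G.dist o a + G.dist a c := hG.dist_triangle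
      rw [SimpleGraph.dist_eq_one_iff_adj.2 h] at h3
      obtain ⟨z, z1, z2⟩ := ih (by omega) hb
      exact ⟨z, by simp [z1], z2⟩

theorem superlin_of_one [Infinite X] (hG : Nice G) (hv : VT G) (h2 : ¬ Multi2 G) : Superlin G := by
  choose m L hL using oneEnd_bd hG hv h2
  let r : ℕ → ℝ := fun i => (fun t => max t (L t))^[i] 0
  have hr : ∀ i, r (i + 1) = max (r i) (L (r i)) := fun i => Function.iterate_succ_apply' _ _ _
  have mono : Monotone r := monotone_nat_of_le_succ fun i => by rw [hr]; exact le_max_left _ _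
  refine superlin_of_spheres hG hv fun k => ?_
  obtain ⟨o⟩ := hG.c.nonempty
  obtain ⟨M, hM⟩ := (finite_range fun i : Fin k => m (r i)).bddAbove
  refine ⟨o, M, fun n hn => ?_⟩
  obtain ⟨q, hq⟩ := exists_at_dist hG.c hG.f o (n + M)
  obtain ⟨p, p1, p2⟩ := geo_split hG.c o n M q hq
  have : ∀ i : Fin k, ∃ z, D G o z = n ∧ r i < D G p z ∧ D G p z ≤ r (i + 1) := by
    intro i
    have h1 : m (r i) ≤ M := hM ⟨i, rfl⟩
    obtain ⟨x, x1, x2⟩ := geo_split hG.c o (n - m (r i)) (m (r i)) p (by omega)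
    obtain ⟨y, y1, y2⟩ := geo_split hG.c p (m (r i)) (M - m (r i)) q (by omega)
    obtain ⟨w, hw⟩ := hL (r i) p x y (by unfold D; rw [G.dist_comm, x2]) (by unfold D; rw [y1])
    have h3 : G.dist o q ≤ G.dist o y + G.dist y q := hG.c.dist_triangle
    obtain ⟨z, z1, z2⟩ := walk_ivt hG.c o n w (by omega) (by omega)
    refine ⟨z, by unfold D; rw [z2], (hw z z1).1, (hw z z1).2.trans ?_⟩
    rw [hr]; exact le_max_right _ _
  choose z z1 z2 z3 using this
  refine ⟨z, fun i j hij => ?_, z1⟩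
  by_contra hne
  rcases lt_or_gt_of_ne hne with h | h
  · have := mono (show i + 1 ≤ (j : ℕ) from h)
    have h4 := z3 i
    rw [hij] at h4
    linarith [z2 j]
  · have := mono (show j + 1 ≤ (i : ℕ) from h)
    have h4 := z3 j
    rw [← hij] at h4
    linarith [z2 i]

end Pool.Agent.Lib.MP_a15413_al
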