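import Mathlib

set_option autoImplicit false

namespace Pool.Agent.Lib.MP_a15413_al

open Set Filter Topology

/-- Unicoherence of simply connected spaces. -/
theorem unicoh {Y : Type*} [TopologicalSpace Y] [NormalSpace Y] [SimplyConnectedSpace Y]
    [LocallyPathConnectedSpace Y] {A B : Set Y} (hA : IsClosed A) (hB : IsClosed B)
    (cA : IsPreconnected A) (cB : IsPreconnected B) (hU : A ∪ B = univ) :
    IsPreconnected (A ∩ B) := by
  classical
  rw [isPreconnected_iff_subset_of_fully_disjoint_closed (hA.inter hB)]
  intro u v hu hv huv hd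
  by_contra hcon
  push Not at hcon
  obtain ⟨h1, h2⟩ := hcon
  obtain ⟨y, hy, hyu⟩ := not_subset.1 h1
  obtain ⟨x, hx, hxv⟩ := not_subset.1 h2
  have hyv : y ∈ v := (huv hy).resolve_left hyu
  have hxu : x ∈ u := (huv hx).resolve_right hxv
  obtain ⟨t, ht0, ht1, -⟩ := exists_continuous_zero_one_of_isClosed hu hv hd
  let h : Y → Circle := fun z =>
    if z ∈ A then Circle.exp (Real.pi * t z) else Circle.exp (-(Real.pi * t z))
  have hAe : EqOn h (fun z => Circle.exp (Real.pi * t z)) A := fun z hz => by simp [h, hz]
  have hBe : EqOn h (fun z => Circle.exp (-(Real.pi * t z))) B := by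
    intro z hz
    by_cases hzA : z ∈ A
    · simp only [h, hzA, if_true]
      rcases huv ⟨hzA, hz⟩ with h' | h'
      · rw [ht0 h']; simp
      · rw [ht1 h']
        rw [Circle.exp_eq_exp]
        exact ⟨1, by simp; ring⟩
    · simp [h, hzA]
  have hc : Continuous h := by
    rw [← continuousOn_univ, ← hU]
    refine ContinuousOn.union_of_isClosed ?_ ?_ hA hB
    · exact (Continuous.continuousOn (by fun_prop)).congr hAe
    · exact (Continuous.continuousOn (by fun_prop)).congr hBe
  have hx0 : Circle.exp 0 = (⟨h, hc⟩ : C(Y, Circle)) x := by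
    show Circle.exp 0 = h x
    rw [hAe hx.1]; simp [ht0 hxu]
  obtain ⟨F, ⟨hF0, hF⟩, -⟩ :=
    Circle.isCoveringMap_exp.existsUnique_continuousMap_lifts ⟨h, hc⟩ x 0 hx0
  have hF' : ∀ z, Circle.exp (F z) = h z := fun z => congrFun hF z
  have e1 : EqOn F (fun z => Real.pi * t z) A := by
    refine Circle.isCoveringMap_exp.eqOn_of_comp_eqOn cA F.continuous.continuousOn
      (Continuous.continuousOn (by fun_prop)) (fun z hz => ?_) hx.1 ?_
    · simp only [Function.comp, hF', hAe hz]
    · simp [hF0, ht0 hxu]
  have e2 : EqOn F (fun z => -(Real.pi * t z)) B := by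
    refine Circle.isCoveringMap_exp.eqOn_of_comp_eqOn cB F.continuous.continuousOn
      (Continuous.continuousOn (by fun_prop)) (fun z hz => ?_) hx.2 ?_
    · simp only [Function.comp, hF', hBe hz]
    · simp [hF0, ht0 hxu]
  have a1 := e1 hy.1
  have a2 := e2 hy.2
  simp only [ht1 hyv, Pi.one_apply, mul_one] at a1 a2
  have := Real.pi_pos
  linarith

/-- Frontier of a component of the complement of a closed set. -/
theorem closure_comp_sub {Y : Type*} [TopologicalSpace Y] [LocallyConnectedSpace Y]
    {C : Set Y} (hC : IsClosed C) (b : Y) :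
    closure (connectedComponentIn Cᶜ b) ⊆ connectedComponentIn Cᶜ b ∪ C := by
  intro q hq
  by_cases hqC : q ∈ C
  · exact Or.inr hqC
  left
  have ho : IsOpen (connectedComponentIn Cᶜ q) := hC.isOpen_compl.connectedComponentIn
  obtain ⟨z, hz1, hz2⟩ := mem_closure_iff.1 hq _ ho (mem_connectedComponentIn hqC)
  rw [connectedComponentIn_eq hz2, ← connectedComponentIn_eq hz1]
  exact mem_connectedComponentIn hqC

/-- The topological lemma. -/
theorem plane_lemma {P : Set ℂ} (hP : IsClosed P) (hne : P ≠ univ)
    (H : ∀ a ∉ P, ∀ E : Set ℂ, IsPreconnected E → E ⊆ P →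
      E ⊆ closure (connectedComponentIn Pᶜ a) → E.Subsingleton) :
    IsPreconnected Pᶜ ∧ Dense Pᶜ := by
  obtain ⟨a, ha⟩ : ∃ a, a ∉ P := by
    by_contra h; push Not at h; exact hne (eq_univ_of_forall h)
  set W := connectedComponentIn Pᶜ a with hW
  have Wo : IsOpen W := hP.isOpen_compl.connectedComponentIn
  have aW : a ∈ W := mem_connectedComponentIn ha
  have Wc : IsPreconnected W := isPreconnected_connectedComponentIn
  have key : closure W = univ := by
    by_contra hcl
    obtain ⟨b, hb⟩ : ∃ b, b ∉ closure W := by
      by_contra h; push Not at h; exact hcl (eq_univ_of_forall h)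
    set C := closure W with hC
    have Cc : IsClosed C := isClosed_closure
    have aC : a ∈ C := subset_closure aW
    set V := connectedComponentIn Cᶜ b with hV
    have Vo : IsOpen V := Cc.isOpen_compl.connectedComponentIn
    have bV : b ∈ V := mem_connectedComponentIn hb
    have VC : V ⊆ Cᶜ := connectedComponentIn_subset _ _
    -- each component together with C is preconnected
    have h1 : ∀ c, c ∉ C → IsPreconnected (C ∪ connectedComponentIn Cᶜ c) := by
      intro c hc
      have hsub := closure_comp_sub Cc c
      have o : IsOpen (connectedComponentIn Cᶜ c) := Cc.isOpen_compl.connectedComponentIn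
      have hn : ∃ q, q ∈ closure (connectedComponentIn Cᶜ c) ∧ q ∈ C := by
        by_contra hh
        push Not at hh
        have cl : IsClosed (connectedComponentIn Cᶜ c) := by
          rw [← closure_subset_iff_isClosed]
          intro q hq
          exact (hsub hq).resolve_right (hh q hq)
        have := IsClopen.eq_univ ⟨cl, o⟩ ⟨c, mem_connectedComponentIn hc⟩
        have h2 : a ∈ connectedComponentIn Cᶜ c := by rw [this]; trivial
        exact connectedComponentIn_subset _ _ h2 aC
      obtain ⟨q, hq1, hq2⟩ := hn
      have : C ∪ connectedComponentIn Cᶜ c = C ∪ closure (connectedComponentIn Cᶜ c) := by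
        apply Subset.antisymm (union_subset_union_right _ subset_closure)
        rintro z (hz | hz)
        · exact Or.inl hz
        · exact (hsub hz).symm
      rw [this]
      exact IsPreconnected.union q hq2 hq1 Wc.closure isPreconnected_connectedComponentIn.closure
    have hB : IsPreconnected Vᶜ := by
      refine isPreconnected_of_forall a fun z hz => ?_
      by_cases hzC : z ∈ C
      · exact ⟨C, fun w hw hw' => VC hw' hw, aC, hzC, Wc.closure⟩
      · refine ⟨C ∪ connectedComponentIn Cᶜ z, ?_, Or.inl aC,
          Or.inr (mem_connectedComponentIn hzC), h1 z hzC⟩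
        rintro w (hw | hw) hw'
        · exact VC hw' hw
        · apply hz
          rw [hV, connectedComponentIn_eq hw', ← connectedComponentIn_eq hw]
          exact mem_connectedComponentIn hzC
    have hE : IsPreconnected (closure V ∩ Vᶜ) :=
      unicoh isClosed_closure Vo.isClosed_compl isPreconnected_connectedComponentIn.closure hB
        (by
          apply eq_univ_of_forall
          intro z
          by_cases hz : z ∈ V
          · exact Or.inl (subset_closure hz)
          · exact Or.inr hz)
    have EC : closure V ∩ Vᶜ ⊆ C := fun z hz => (closure_comp_sub Cc b hz.1).resolve_left hz.2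
    have WV : ∀ z ∈ W, z ∉ closure V := by
      intro z hz hz'
      obtain ⟨w, hw1, hw2⟩ := mem_closure_iff.1 hz' _ Wo hz
      exact VC hw2 (subset_closure hw1)
    have EP : closure V ∩ Vᶜ ⊆ P := by
      intro z hz
      rcases closure_comp_sub hP a (EC hz) with h | h
      · exact absurd hz.1 (WV z h)
      · exact h
    have hs := H a ha _ hE EP EC
    -- the frontier has at most one point
    obtain ⟨q, hq⟩ : ∃ q, closure V ∩ Vᶜ ⊆ {q} := by
      rcases hs.eq_empty_or_singleton with h | ⟨q, h⟩
      · exact ⟨0, by rw [h]; exact empty_subset _⟩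
      · exact ⟨q, by rw [h]⟩
    have hc : IsPreconnected ({q}ᶜ : Set ℂ) :=
      (isConnected_compl_singleton_of_one_lt_rank (by simp) q).isPreconnected
    have inf : ∀ O : Set ℂ, IsOpen O → O.Nonempty → (({q}ᶜ : Set ℂ) ∩ O).Nonempty := by
      intro O hO hn
      have := (dense_compl_singleton q).inter_open_nonempty O hO hn
      rwa [inter_comm] at this
    have := hc V (closure V)ᶜ Vo isClosed_closure.isOpen_compl ?_ (inf V Vo ⟨b, bV⟩)
      (inf _ isClosed_closure.isOpen_compl ⟨a, WV a aW⟩)
    · obtain ⟨z, -, hz1, hz2⟩ := this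
      exact hz2 (subset_closure hz1)
    · intro z hz
      by_cases h1 : z ∈ V
      · exact Or.inl h1
      · right
        intro h2
        exact hz (hq ⟨h2, h1⟩)
  have WP : W ⊆ Pᶜ := connectedComponentIn_subset _ _
  have dW : Dense W := dense_iff_closure_eq.2 key
  refine ⟨?_, dW.mono WP⟩
  exact Wc.subset_closure WP (by rw [key]; exact subset_univ _)

end Pool.Agent.Lib.MP_a15413_al
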