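import Pool.Agent.Lib.MP_a15413_al.Tour
import Pool.Agent.Lib.MP_a15413_al.Topo

set_option autoImplicit false

namespace Pool.Agent.Lib.MP_a15413_al

open Set Filter Topology

variable {X F : Type} {G : SimpleGraph X}

/-- sheet case -/
def SCase (G : SimpleGraph X) (U : Ultrafilter ℕ) (lam : ℕ → ℝ) (f : ℕ → ℂ → St X F) : Prop :=
  ∀ u v, ∀ r > 0, ∀ᶠ n in (U : Filter ℕ), D G (f n u).2 (f n v).2 ≤ r * lam n ∧
    ∀ z ∈ df (f n u).1 (f n v).1, D G (f n u).2 z ≤ r * lam n

/-- leaf case -/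
def LCase (G : SimpleGraph X) (U : Ultrafilter ℕ) (lam : ℕ → ℝ) (f : ℕ → ℂ → St X F) : Prop :=
  ∀ u v, ∀ η > 0, ∀ᶠ n in (U : Filter ℕ), ∃ c : X → F,
    Tour G (f n u) (c, (f n u).2) (η * lam n) ∧ Tour G (f n v) (c, (f n v).2) (η * lam n)

/-- equal cursors in the limit -/
def Near (G : SimpleGraph X) (U : Ultrafilter ℕ) (lam : ℕ → ℝ) (f : ℕ → ℂ → St X F) (w : ℂ) :
    Set ℂ := {u | ∀ r > 0, ∀ᶠ n in (U : Filter ℕ), D G (f n w).2 (f n u).2 ≤ r * lam n}

section
variable {U : Ultrafilter ℕ} {lam : ℕ → ℝ} {f : ℕ → ℂ → St X F}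

theorem not_near {w u : ℂ} (h : u ∉ Near G U lam f w) :
    ∃ r > 0, ∀ᶠ n in (U : Filter ℕ), r * lam n < D G (f n w).2 (f n u).2 := by
  simp only [Near, mem_ofPred_eq, not_forall] at h
  obtain ⟨r, hr, h⟩ := h
  refine ⟨r, hr, ?_⟩
  rw [← Ultrafilter.eventually_not] at h
  simpa using h

variable (hG : G.Connected) (hl : ∀ᶠ n in (U : Filter ℕ), 0 < lam n)
  (loc : ∀ a, ∀ r > 0, ∀ᶠ b in 𝓝 a, ∀ᶠ n in (U : Filter ℕ), Tour G (f n a) (f n b) (r * lam n))
include hG loc

theorem far_out (w : ℂ) {E : Set ℂ} (hE : IsPreconnected E) (hP : E ⊆ Near G U lam f w)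
    {r : ℝ} (hr : 0 < r) {u v : ℂ} (hu : u ∈ E) (hv : v ∈ E) :
    ∀ᶠ n in (U : Filter ℕ), ∀ z ∈ df (f n u).1 (f n v).1, D G (f n w).2 z ≤ r * lam n := by
  refine hE.induction₂ (fun u v => ∀ᶠ n in (U : Filter ℕ), ∀ z ∈ df (f n u).1 (f n v).1,
    D G (f n w).2 z ≤ r * lam n) ?_ ?_ ?_ hu hv
  · intro a ha
    filter_upwards [mem_nhdsWithin_of_mem_nhds (loc a (r / 2) (by positivity))] with b hb
    filter_upwards [hb, hP ha (r / 2) (by positivity)] with n h1 h2 z hz
    have := h1.mem_dist hz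
    have := D_tri hG (f n w).2 (f n a).2 z
    linarith
  · intro a b c _ _ _ h1 h2
    filter_upwards [h1, h2] with n h1 h2 z hz
    rcases df_tri _ (f n b).1 _ hz with h | h
    exacts [h1 z h, h2 z h]
  · intro a b _ _ h
    filter_upwards [h] with n h z hz
    exact h z (by rwa [df_comm])

include hl

theorem near_in (w : ℂ) {W : Set ℂ} (hW : IsPreconnected W) (hP : W ⊆ (Near G U lam f w)ᶜ)
    {u v : ℂ} (hu : u ∈ W) (hv : v ∈ W) :
    ∃ r > 0, ∀ᶠ n in (U : Filter ℕ), ∀ z ∈ df (f n u).1 (f n v).1, r * lam n < D G (f n w).2 z := by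
  refine hW.induction₂ (fun u v => ∃ r > 0, ∀ᶠ n in (U : Filter ℕ),
    ∀ z ∈ df (f n u).1 (f n v).1, r * lam n < D G (f n w).2 z) ?_ ?_ ?_ hu hv
  · intro a ha
    obtain ⟨r, hr, h⟩ := not_near (hP ha)
    filter_upwards [mem_nhdsWithin_of_mem_nhds (loc a (r / 2) (by positivity))] with b hb
    refine ⟨r / 2, by positivity, ?_⟩
    filter_upwards [hb, h] with n h1 h2 z hz
    have := h1.mem_dist hz
    have := D_tri hG (f n w).2 z (f n a).2
    rw [D_comm z] at this
    linarith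
  · rintro a b c _ _ _ ⟨r, hr, h1⟩ ⟨s, hs, h2⟩
    refine ⟨min r s, lt_min hr hs, ?_⟩
    filter_upwards [h1, h2, hl] with n h1 h2 h3 z hz
    rcases df_tri _ (f n b).1 _ hz with h | h
    · exact lt_of_le_of_lt (mul_le_mul_of_nonneg_right (min_le_left _ _) h3.le) (h1 z h)
    · exact lt_of_le_of_lt (mul_le_mul_of_nonneg_right (min_le_right _ _) h3.le) (h2 z h)
  · rintro a b _ _ ⟨r, hr, h⟩
    refine ⟨r, hr, ?_⟩
    filter_upwards [h] with n h z hz
    exact h z (by rwa [df_comm])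

theorem near_closed (w : ℂ) : IsClosed (Near G U lam f w) := by
  rw [← isOpen_compl_iff, isOpen_iff_mem_nhds]
  intro a ha
  obtain ⟨r, hr, h⟩ := not_near ha
  filter_upwards [loc a (r / 2) (by positivity)] with b hb hb'
  obtain ⟨n, h1, h2, h3, h4⟩ := (hb.and (h.and ((hb' (r / 4) (by positivity)).and hl))).exists
  have := h1.dist_le
  have := D_tri hG (f n w).2 (f n b).2 (f n a).2
  rw [D_comm (f n b).2] at this
  nlinarith

theorem dichotomy
    (inj : ∀ u v, u ≠ v → ∃ η > 0, ∀ᶠ n in (U : Filter ℕ), ¬ Tour G (f n u) (f n v) (η * lam n)) :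
    SCase G U lam f ∨ LCase G U lam f := by
  classical
  by_cases hS : ∃ w, Near G U lam f w = univ
  · left
    obtain ⟨w, hw⟩ := hS
    intro u v r hr
    have hu : u ∈ Near G U lam f w := by rw [hw]; trivial
    have hv : v ∈ Near G U lam f w := by rw [hw]; trivial
    filter_upwards [hu (r / 2) (by positivity), hv (r / 2) (by positivity),
      far_out hG loc w isPreconnected_univ (by rw [hw]) (r := r / 2) (by positivity)
        (mem_univ u) (mem_univ v)] with n h1 h2 h3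
    rw [D_comm] at h1
    refine ⟨by linarith [D_tri hG (f n u).2 (f n w).2 (f n v).2], fun z hz => ?_⟩
    linarith [D_tri hG (f n u).2 (f n w).2 z, h3 z hz]
  right
  push Not at hS
  have T : ∀ w, IsPreconnected (Near G U lam f w)ᶜ ∧ Dense (Near G U lam f w)ᶜ := by
    intro w
    refine plane_lemma (near_closed hG hl loc w) (hS w) ?_
    intro a _ E hE hEP hEW u hu v hv
    by_contra huv
    obtain ⟨η, hη, hn⟩ := inj u v huv
    obtain ⟨u', hu1, hu2⟩ := mem_closure_iff_nhds.1 (hEW hu) _ (loc u (η / 6) (by positivity))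
    obtain ⟨v', hv1, hv2⟩ := mem_closure_iff_nhds.1 (hEW hv) _ (loc v (η / 6) (by positivity))
    obtain ⟨r, hr, h1⟩ := near_in hG hl loc w isPreconnected_connectedComponentIn
      (connectedComponentIn_subset _ _) hu2 hv2
    have h2 := far_out hG loc w hE hEP hr hu hv
    have hu1' : ∀ᶠ n in (U : Filter ℕ), Tour G (f n u) (f n u') (η / 6 * lam n) := hu1
    have hv1' : ∀ᶠ n in (U : Filter ℕ), Tour G (f n v) (f n v') (η / 6 * lam n) := hv1
    obtain ⟨n, a1, a2, a3, a4, a5, a6, a7⟩ := (hn.and (hu1'.and (hv1'.and (h1.and (h2.and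
      ((hEP hu (η / 6) (by positivity)).and (hEP hv (η / 6) (by positivity)))))))).exists
    apply a1
    have g : D G (f n u).2 (f n v).2 ≤ η / 6 * lam n + η / 6 * lam n := by
      rw [D_comm] at a6
      linarith [D_tri hG (f n u).2 (f n w).2 (f n v).2]
    refine (((Cov.loop a2).trans (Cov.geo' hG g)).trans (Cov.loop a3)).mono ?_ (by linarith)
    intro z hz
    have b1 := a5 z hz
    have b2 : z ∉ df (f n u').1 (f n v').1 := fun h => by linarith [a4 z h]
    rcases df_tri _ (f n u').1 _ hz with h | h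
    · exact Or.inl (Or.inl h)
    · rcases df_tri _ (f n v').1 _ h with h | h
      · exact absurd h b2
      · right; rwa [df_comm]
  intro u v η hη
  -- perturbations avoiding the cursor of a given point
  have pert : ∀ w, ∃ u' v', (∀ᶠ n in (U : Filter ℕ), Tour G (f n u) (f n u') (η / 4 * lam n)) ∧
      (∀ᶠ n in (U : Filter ℕ), Tour G (f n v) (f n v') (η / 4 * lam n)) ∧
      ∃ r > 0, ∀ᶠ n in (U : Filter ℕ), ∀ z ∈ df (f n u').1 (f n v').1,
        r * lam n < D G (f n w).2 z := by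
    intro w
    obtain ⟨u', hu1, hu2⟩ := mem_closure_iff_nhds.1 ((T w).2 u) _ (loc u (η / 4) (by positivity))
    obtain ⟨v', hv1, hv2⟩ := mem_closure_iff_nhds.1 ((T w).2 v) _ (loc v (η / 4) (by positivity))
    exact ⟨u', v', hu1, hv1, near_in hG hl loc w (T w).1 le_rfl hu2 hv2⟩
  obtain ⟨u1, v1, hu1, hv1, r1, hr1, h1⟩ := pert u
  obtain ⟨u2, v2, hu2, hv2, r2, hr2, h2⟩ := pert v
  let A : ℕ → Set X := fun n => df (f n u).1 (f n u1).1 ∪ df (f n u).1 (f n u2).1
  let B : ℕ → Set X := fun n => df (f n v).1 (f n v1).1 ∪ df (f n v).1 (f n v2).1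
  have split : ∀ n z (u' v' : ℂ), z ∈ df (f n u).1 (f n v).1 → z ∉ df (f n u').1 (f n v').1 →
      z ∈ df (f n u).1 (f n u').1 ∨ z ∈ df (f n v).1 (f n v').1 := by
    intro n z u' v' hz b2
    rcases df_tri _ (f n u').1 _ hz with h | h
    · exact Or.inl h
    · rcases df_tri _ (f n v').1 _ h with h | h
      · exact absurd h b2
      · right; rwa [df_comm]
  have Q : ∀ w, ∃ r > 0, ∀ᶠ n in (U : Filter ℕ), ∀ z ∈ df (f n u).1 (f n v).1,
      D G (f n w).2 z ≤ r * lam n → z ∈ A n ∪ B n := by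
    intro w
    by_cases hu : u ∈ Near G U lam f w
    · refine ⟨r1 / 2, by positivity, ?_⟩
      filter_upwards [h1, hu (r1 / 2) (by positivity)] with n a1 a2 z hz hd
      have b : z ∉ df (f n u1).1 (f n v1).1 := fun h => by
        have := a1 z h
        rw [D_comm] at a2
        linarith [D_tri hG (f n u).2 (f n w).2 z]
      rcases split n z u1 v1 hz b with h | h
      exacts [Or.inl (Or.inl h), Or.inr (Or.inl h)]
    by_cases hv : v ∈ Near G U lam f w
    · refine ⟨r2 / 2, by positivity, ?_⟩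
      filter_upwards [h2, hv (r2 / 2) (by positivity)] with n a1 a2 z hz hd
      have b : z ∉ df (f n u2).1 (f n v2).1 := fun h => by
        have := a1 z h
        rw [D_comm] at a2
        linarith [D_tri hG (f n v).2 (f n w).2 z]
      rcases split n z u2 v2 hz b with h | h
      exacts [Or.inl (Or.inr h), Or.inr (Or.inr h)]
    obtain ⟨r, hr, h⟩ := near_in hG hl loc w (T w).1 le_rfl hu hv
    refine ⟨r, hr, ?_⟩
    filter_upwards [h] with n a1 z hz hd
    linarith [a1 z hz]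
  have main : ∀ᶠ n in (U : Filter ℕ), ∀ z ∈ df (f n u).1 (f n v).1, z ∉ A n ∪ B n →
      z ∉ df (f n u).1 (f n v).1 := by
    refine isPreconnected_univ.induction₂ (fun a b => ∀ᶠ n in (U : Filter ℕ),
      ∀ z ∈ df (f n u).1 (f n v).1, z ∉ A n ∪ B n → z ∉ df (f n a).1 (f n b).1) ?_ ?_ ?_
      (mem_univ u) (mem_univ v)
    · intro a _
      obtain ⟨r, hr, h⟩ := Q a
      filter_upwards [mem_nhdsWithin_of_mem_nhds (loc a r hr)] with b hb
      filter_upwards [hb, h] with n a1 a2 z hz hz' hz''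
      exact hz' (a2 z hz (a1.mem_dist hz''))
    · intro a b c _ _ _ h1 h2
      filter_upwards [h1, h2] with n h1 h2 z hz hz' hz''
      rcases df_tri _ (f n b).1 _ hz'' with h | h
      exacts [h1 z hz hz' h, h2 z hz hz' h]
    · intro a b _ _ h
      filter_upwards [h] with n h z hz hz'
      rw [df_comm]; exact h z hz hz'
  filter_upwards [main, hu1, hv1, hu2, hv2] with n a0 a1 a2 a3 a4
  refine ⟨fun z => if z ∈ A n then (f n v).1 z else (f n u).1 z, ?_, ?_⟩
  · refine ((Cov.loop a1).trans (Cov.loop a3)).mono ?_ (by linarith)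
    intro z hz
    by_contra h
    have h' : z ∉ A n := h
    simp [df, h'] at hz
  · refine ((Cov.loop a2).trans (Cov.loop a4)).mono ?_ (by linarith)
    intro z hz
    by_cases h' : z ∈ A n
    · simp [df, h'] at hz
    · have hz' : z ∈ df (f n u).1 (f n v).1 := by
        rw [df_comm]; simpa [df, h'] using hz
      by_contra h
      exact a0 z hz' (fun hh => hh.elim h' h) hz'

end

end Pool.Agent.Lib.MP_a15413_al
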