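import Pool.Agent.Lib.MP_a15413_al.Cuts2

set_option autoImplicit false

namespace Pool.Agent.Lib.MP_a15413_al

open Set Filter Topology Cardinal

variable {X : Type} {G : SimpleGraph X}

/-- the ends -/
abbrev En (G : SimpleGraph X) : Type := ↥(G.componentComplFunctor.sections)

/-- the component chosen by an end -/
def cmp (e : En G) (K : Finset X) : G.ComponentCompl (K : Set X) := e.1 (Opposite.op K)

theorem cmp_hom (e : En G) {K L : Finset X} (h : K ⊆ L) :
    (cmp e L).hom (Finset.coe_subset.2 h) = cmp e K :=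
  e.2 (CategoryTheory.opHomOfLE (show Opposite.unop (Opposite.op K) ≤ Opposite.unop (Opposite.op L)
    from h))

theorem cmp_sub (e : En G) {K L : Finset X} (h : K ⊆ L) : (cmp e L).supp ⊆ (cmp e K).supp := by
  rw [← cmp_hom e h]
  exact SimpleGraph.ComponentCompl.subset_hom _ _

theorem cmp_inf (e : En G) (K : Finset X) : (cmp e K).supp.Infinite :=
  G.end_componentCompl_infinite e (Opposite.op K)

theorem en_ext {e e' : En G} (h : ∀ K, cmp e K = cmp e' K) : e = e' :=
  Subtype.ext (funext fun K => h K.unop)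

/-- the end lies in the set -/
def In (e : En G) (A : Set X) : Prop := ∃ K, (cmp e K).supp ⊆ A

theorem In.inter {e : En G} {A B : Set X} (h : In e A) (h' : In e B) : In e (A ∩ B) := by
  classical
  obtain ⟨K, h⟩ := h
  obtain ⟨L, h'⟩ := h'
  exact ⟨K ∪ L, subset_inter ((cmp_sub e Finset.subset_union_left).trans h)
    ((cmp_sub e Finset.subset_union_right).trans h')⟩

theorem In.ne {e e' : En G} {A B : Set X} (h : In e A) (h' : In e' B) (d : Disjoint A B) :
    e ≠ e' := by
  rintro rfl
  obtain ⟨K, hK⟩ := h.inter h'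
  rw [d.inter_eq, subset_empty_iff] at hK
  exact cmp_inf e K (hK ▸ finite_empty)

theorem comp_ic (hG : Nice G) {K : Finset X} (C : G.ComponentCompl (K : Set X))
    (h : C.supp.Infinite) : IC G C.supp := by
  obtain ⟨o⟩ := hG.c.nonempty
  obtain ⟨R, hR⟩ := (K.finite_toSet.image (D G o)).bddAbove
  refine ⟨h, o, R + 1, fun a b h1 h2 h3 => ?_⟩
  have : b ∈ (K : Set X) := by
    by_contra hb
    exact h3 (SimpleGraph.ComponentCompl.mem_of_adj a b h2 hb h1)
  linarith [hR ⟨b, this, rfl⟩, D_tri hG.c o b a, D_adj h1.symm]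

theorem comp_side {K : Set X} (C : G.ComponentCompl K) {A : Set X} {o : X} {R : ℝ}
    (h : CutIn G A o R) (hK : Bl G o R ⊆ K) : C.supp ⊆ A ∨ C.supp ⊆ Aᶜ := by
  let f : G.ComponentCompl K → Prop := SimpleGraph.ComponentCompl.lift (fun v _ => v ∈ A) (by
    intro v w hv hw hvw
    refine propext ⟨fun h1 => ?_, fun h1 => ?_⟩
    · by_contra h2; exact hv (hK (h v w hvw h1 h2))
    · by_contra h2; exact hw (hK (h w v hvw.symm h1 h2)))
  by_cases hC : f C
  · left; rintro v ⟨hv, rfl⟩; exact hC
  · right; rintro v ⟨hv, rfl⟩; exact hC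

theorem Nice.fin_comp (hG : Nice G) (K : Finset X) : Finite (G.ComponentCompl (K : Set X)) := by
  have : Fact G.Preconnected := ⟨hG.c.1⟩
  have : G.LocallyFinite := fun v =>
    ((hG.f v 1).subset fun z hz => (D_adj hz).le).fintype
  infer_instance

theorem end_of_ultra (hG : Nice G) (U : Ultrafilter X) (hU : (U : Filter X) ≤ cofinite) :
    ∃ e : En G, ∀ A o R, CutIn G A o R → A ∈ U → In e A := by
  have : ∀ K : Finset X, ∃ C : G.ComponentCompl (K : Set X), C.supp ∈ U := by
    intro K
    have := hG.fin_comp K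
    have h1 : (⋃ C ∈ (univ : Set (G.ComponentCompl (K : Set X))), C.supp) ∈ U := by
      refine mem_of_superset (hU K.finite_toSet.compl_mem_cofinite) fun v hv => ?_
      exact mem_biUnion (mem_univ (G.componentComplMk hv)) ⟨hv, rfl⟩
    obtain ⟨C, -, hC⟩ := (Ultrafilter.finite_biUnion_mem_iff finite_univ).1 h1
    exact ⟨C, hC⟩
  choose s hs using this
  refine ⟨⟨fun K => s K.unop, ?_⟩, ?_⟩
  · intro K L f
    refine (SimpleGraph.ComponentCompl.hom_eq_iff_not_disjoint _
      (Finset.coe_subset.2 (CategoryTheory.le_of_op_hom f)) _).2 ?_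
    rw [not_disjoint_iff_nonempty_inter]
    exact U.nonempty_of_mem (inter_mem (hs _) (hs _))
  · intro A o R h hA
    refine ⟨(hG.f o R).toFinset, (comp_side _ h (by simp)).resolve_right fun h2 => ?_⟩
    obtain ⟨z, z1, z2⟩ := U.nonempty_of_mem (inter_mem (hs (hG.f o R).toFinset) hA)
    exact h2 z1 z2

theorem end_of_seq (hG : Nice G) (A : ℕ → Set X) (hA : ∀ n, IC G (A n)) (anti : Antitone A) :
    ∃ e : En G, ∀ n, In e (A n) := by
  have : (cofinite ⊓ ⨅ n, 𝓟 (A n)).NeBot := by
    have hb : (⨅ n, 𝓟 (A n)).HasBasis (fun _ => True) A :=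
      hasBasis_iInf_principal anti.directed_ge
    rw [inf_comm, hb.inf_neBot_iff]
    intro n _ t ht
    obtain ⟨z, z1, z2⟩ := (hA n).1.exists_notMem_finite ht
    exact ⟨z, z1, not_not.1 z2⟩
  obtain ⟨U, hU⟩ := Ultrafilter.exists_le (cofinite ⊓ ⨅ n, 𝓟 (A n))
  obtain ⟨e, he⟩ := end_of_ultra hG U (hU.trans inf_le_left)
  refine ⟨e, fun n => ?_⟩
  obtain ⟨-, o, R, h⟩ := hA n
  exact he _ o R h (le_principal_iff.1 ((hU.trans inf_le_right).trans (iInf_le _ n)))

theorem end_of_ic (hG : Nice G) {A : Set X} (hA : IC G A) : ∃ e : En G, In e A := by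
  obtain ⟨e, he⟩ := end_of_seq hG (fun _ => A) (fun _ => hA) antitone_const
  exact ⟨e, he 0⟩

theorem sep {e e' : En G} (h : e ≠ e') :
    ∃ K, ∀ L, K ⊆ L → Disjoint (cmp e L).supp (cmp e' L).supp := by
  obtain ⟨K, hK⟩ : ∃ K, cmp e K ≠ cmp e' K := by
    by_contra hn
    push Not at hn
    exact h (en_ext hn)
  exact ⟨K, fun L hL => (SimpleGraph.ComponentCompl.pairwise_disjoint hK).mono (cmp_sub e hL)
    (cmp_sub e' hL)⟩

theorem ends_zero [Finite X] : #(En G) = 0 := by
  have : IsEmpty (En G) := (inferInstance : IsEmpty G.end)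
  exact mk_eq_zero _

theorem ends_one [Infinite X] (hG : Nice G) (h : ¬ Multi2 G) : #(En G) = 1 := by
  obtain ⟨e, -⟩ := end_of_ic hG ic_univ
  rw [eq_one_iff_unique]
  refine ⟨⟨fun a b => ?_⟩, ⟨e⟩⟩
  by_contra hn
  obtain ⟨K, hK⟩ := sep hn
  exact h ⟨_, _, comp_ic hG _ (cmp_inf a K), comp_ic hG _ (cmp_inf b K), hK K le_rfl⟩

theorem ends_two (hG : Nice G) (h2 : Multi2 G) (h3 : ¬ Multi3 G) : #(En G) = 2 := by
  classical
  obtain ⟨A, B, hA, hB, d⟩ := h2
  obtain ⟨a, ha⟩ := end_of_ic hG hA
  obtain ⟨b, hb⟩ := end_of_ic hG hB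
  have hab := ha.ne hb d
  rw [mk_eq_two_iff]
  refine ⟨a, b, hab, eq_univ_of_forall fun c => ?_⟩
  by_contra hn
  simp only [mem_insert_iff, mem_singleton_iff, not_or] at hn
  obtain ⟨K1, k1⟩ := sep hab
  obtain ⟨K2, k2⟩ := sep (Ne.symm hn.1)
  obtain ⟨K3, k3⟩ := sep (Ne.symm hn.2)
  exact h3 ⟨_, _, _, comp_ic hG _ (cmp_inf a (K1 ∪ K2 ∪ K3)), comp_ic hG _ (cmp_inf b _),
    comp_ic hG _ (cmp_inf c _), k1 _ (by intro x; simp +contextual),
    k2 _ (by intro x; simp +contextual), k3 _ (by intro x; simp +contextual)⟩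

theorem Nice.countable (hG : Nice G) : Countable X := by
  obtain ⟨o⟩ := hG.c.nonempty
  rw [← countable_univ_iff]
  refine (countable_iUnion fun n : ℕ => (hG.f o n).countable).mono fun z _ => ?_
  exact mem_iUnion.2 ⟨G.dist o z, le_refl (D G o z)⟩

theorem ends_many (hG : Nice G) (hv : VT G) (h : Multi3 G) : #(En G) = 𝔠 := by
  apply le_antisymm
  · have := hG.countable
    have h1 : #(En G) ≤ #(Set (Finset X × X)) := by
      refine mk_le_of_injective (f := fun e => {x | x.2 ∈ (cmp e x.1).supp}) fun e e' he => ?_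
      refine en_ext fun K => SimpleGraph.ComponentCompl.supp_injective ?_
      ext z
      exact Set.ext_iff.1 he (K, z)
    refine h1.trans ?_
    rw [mk_set, ← two_power_aleph0]
    exact power_le_power_left two_ne_zero mk_le_aleph0
  · obtain ⟨f, hf⟩ := scheme hG hv h
    have := h.inf
    let A : (ℕ → Bool) → ℕ → Set X := fun x n => Nat.rec univ (fun k S => f (x k) S) n
    have hS : ∀ x n, A x (n + 1) = f (x n) (A x n) := fun _ _ => rfl
    have hA : ∀ x n, IC G (A x n) := by
      intro x n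
      induction n with
      | zero => exact ic_univ
      | succ n ih => exact ((hf _ ih).1 _).1
    choose e he using fun x => end_of_seq hG (A x) (hA x)
      (antitone_nat_of_succ_le fun n => ((hf _ (hA x n)).1 _).2)
    have inj : Function.Injective e := by
      intro x y hxy
      have : ∀ n, A x n = A y n → x n = y n := by
        intro n hn
        by_contra hne
        refine (he x (n + 1)).ne (he y (n + 1)) ?_ hxy
        rw [hS, hS, hn]
        have := (hf _ (hA y n)).2
        cases hx : x n <;> cases hy : y n <;> simp_all [disjoint_comm]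
      have h2 : ∀ n, A x n = A y n := by
        intro n
        induction n with
        | zero => rfl
        | succ n ih => rw [hS, hS, this n ih, ih]
      exact funext fun n => this n (h2 n)
    have := mk_le_of_injective inj
    simpa using this

end Pool.Agent.Lib.MP_a15413_al
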