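import Pool.Agent.Lib.MP_a15413_al.Sheet
import Pool.Agent.Lib.MP_a15413_al.Dich

set_option autoImplicit false

namespace Pool.Agent.Lib.MP_a15413_al

open Set Filter Topology
open scoped symmDiff

variable {X F X' F' : Type} {G : SimpleGraph X} {G' : SimpleGraph X'}

/-- a class of configurations modulo finite changes -/
structure Cls (O : Set (X → F)) : Prop where
  ne : O.Nonempty
  cl : ∀ a ∈ O, ∀ b, (df a b).Finite → b ∈ O
  fin : ∀ a ∈ O, ∀ b ∈ O, (df a b).Finite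

/-- quasi-isometry of lamplighter graphs -/
structure QI (G : SimpleGraph X) (G' : SimpleGraph X') (O : Set (X → F)) (O' : Set (X' → F'))
    (φ : St X F → St X' F') (K : ℝ) : Prop where
  pos : 1 ≤ K
  maps : ∀ s, s.1 ∈ O → (φ s).1 ∈ O'
  up : ∀ s t l, s.1 ∈ O → t.1 ∈ O → Tour G s t l → Tour G' (φ s) (φ t) (K * l + K)
  low : ∀ s t l, s.1 ∈ O → t.1 ∈ O → Tour G' (φ s) (φ t) l → Tour G s t (K * l + K)
  surj : ∀ t, t.1 ∈ O' → ∃ s, s.1 ∈ O ∧ Tour G' t (φ s) K

theorem QI.inv [Nonempty X] {O : Set (X → F)} {O' : Set (X' → F')} {φ : St X F → St X' F'} {K : ℝ}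
    (hO : Cls O) (h : QI G G' O O' φ K) :
    ∃ ψ K', QI G' G O' O ψ K' ∧ ∀ s, s.1 ∈ O → Tour G s (ψ (φ s)) K' := by
  have : ∀ t : St X' F', ∃ s : St X F, s.1 ∈ O ∧ (t.1 ∈ O' → Tour G' t (φ s) K) := by
    intro t
    by_cases ht : t.1 ∈ O'
    · obtain ⟨s, h1, h2⟩ := h.surj t ht
      exact ⟨s, h1, fun _ => h2⟩
    · obtain ⟨a, ha⟩ := hO.ne
      exact ⟨(a, Classical.arbitrary X), ha, fun h => absurd h ht⟩
  choose ψ h1 h2 using this
  have hK := h.pos
  have e : ∀ s, s.1 ∈ O → Tour G s (ψ (φ s)) (2 * K ^ 2 + 3 * K) := fun s hs =>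
    (h.low _ _ _ hs (h1 _) (h2 _ (h.maps s hs))).mono (by nlinarith)
  refine ⟨ψ, 2 * K ^ 2 + 3 * K, ⟨by nlinarith, fun t _ => h1 t, ?_, ?_, ?_⟩, e⟩
  · intro t t' l ht ht' hl
    have := hl.nonneg
    refine (h.low _ _ _ (h1 t) (h1 t') (((h2 t ht).symm.trans hl).trans (h2 t' ht'))).mono ?_
    nlinarith [mul_nonneg (by nlinarith : 0 ≤ 2 * K ^ 2 + 2 * K) this]
  · intro t t' l ht ht' hl
    have := hl.nonneg
    refine (((h2 t ht).trans (h.up _ _ _ (h1 t) (h1 t') hl)).trans (h2 t' ht').symm).mono ?_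
    nlinarith [mul_nonneg (by nlinarith : 0 ≤ 2 * K ^ 2 + 2 * K) this]
  · intro s hs
    exact ⟨φ s, h.maps s hs, e s hs⟩

open Classical in
/-- switch the lamps of a set -/
noncomputable def flip (τ : F → F) (c : X → F) (A : Set X) : X → F :=
  fun z => if z ∈ A then τ (c z) else c z

@[simp] theorem flip_empty (τ : F → F) (c : X → F) : flip τ c ∅ = c := by
  ext z; simp [flip]

theorem df_flip {τ : F → F} (h : ∀ a, τ a ≠ a) (c : X → F) (A B : Set X) :
    df (flip τ c A) (flip τ c B) = A ∆ B := by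
  ext z
  have := h (c z)
  by_cases h1 : z ∈ A <;> by_cases h2 : z ∈ B <;> simp [df, flip, mem_symmDiff, h1, h2, this,
    this.symm]

theorem df_flip0 {τ : F → F} (h : ∀ a, τ a ≠ a) (c : X → F) (A : Set X) :
    df c (flip τ c A) = A := by
  ext z
  have := h (c z)
  by_cases h1 : z ∈ A <;> simp [df, flip, h1, this.symm]

theorem df_flip2 {τ : F → F} (h : Function.Injective τ) (c c' : X → F) (A : Set X) :
    df (flip τ c A) (flip τ c' A) = df c c' := by
  ext z
  by_cases h1 : z ∈ A <;> simp [df, flip, h1, h.eq_iff]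

/-- the sheet through a sequence of states -/
noncomputable def Sh (φ : St X F → St X' F') (τ : F → F) (E : ℕ → X → ℂ → Set X)
    (s : ℕ → St X F) : ℕ → ℂ → St X' F' :=
  fun n u => φ (flip τ (s n).1 (E n (s n).2 u), (s n).2)

/-- all the data needed for sheets -/
structure Ctx (G : SimpleGraph X) (G' : SimpleGraph X') (O : Set (X → F)) (O' : Set (X' → F'))
    (φ : St X F → St X' F') (K : ℝ) (τ : F → F) (U : Ultrafilter ℕ) (lam : ℕ → ℝ)
    (E : ℕ → X → ℂ → Set X) : Prop where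
  c : G.Connected
  c' : G'.Connected
  o : Cls O
  o' : Cls O'
  q : QI G G' O O' φ K
  t1 : ∀ a, τ a ≠ a
  t2 : Function.Injective τ
  l : Tendsto lam U atTop
  e0 : ∀ n p, E n p 0 = ∅
  e1 : ∀ n p u, (E n p u).Finite
  e2 : ∀ u v, ∀ η > 0, ∀ᶠ n in (U : Filter ℕ), ∀ p,
    Cov G p p (E n p u ∆ E n p v) ((4 * dist u v + η) * lam n)
  e3 : ∀ u v, ∀ η > 0, ∀ᶠ n in (U : Filter ℕ), ∀ p,
    (dist u v / 2 - η) * lam n ≤ (E n p u ∆ E n p v).ncard

namespace Ctx

variable {O : Set (X → F)} {O' : Set (X' → F')} {φ : St X F → St X' F'} {K : ℝ} {τ : F → F}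
  {U : Ultrafilter ℕ} {lam : ℕ → ℝ} {E : ℕ → X → ℂ → Set X}
  (C : Ctx G G' O O' φ K τ U lam E)
include C

theorem flip_mem {a : X → F} (ha : a ∈ O) (n : ℕ) (p : X) (u : ℂ) : flip τ a (E n p u) ∈ O :=
  C.o.cl a ha _ (by rw [df_flip0 C.t1]; exact C.e1 n p u)

theorem sh_zero (s : ℕ → St X F) (n : ℕ) : Sh φ τ E s n 0 = φ (s n) := by
  simp [Sh, C.e0]

theorem big (a : ℝ) : ∀ᶠ n in (U : Filter ℕ), a ≤ lam n := C.l.eventually_ge_atTop a

theorem sh_up {s : ℕ → St X F} (hs : ∀ n, (s n).1 ∈ O) (u v : ℂ) {η : ℝ} (hη : 0 < η) :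
    ∀ᶠ n in (U : Filter ℕ),
      Tour G' (Sh φ τ E s n u) (Sh φ τ E s n v) ((4 * K * dist u v + η) * lam n) := by
  have hK := C.q.pos
  filter_upwards [C.e2 u v (η / (2 * K)) (by positivity), C.big (2 * K / η)] with n h1 h2
  refine (C.q.up (_, _) (_, _) ((4 * dist u v + η / (2 * K)) * lam n) (C.flip_mem (hs n) _ _ _)
    (C.flip_mem (hs n) _ _ _) ?_).mono ?_
  · show Cov G _ _ (df (flip τ _ _) (flip τ _ _)) _
    rw [df_flip C.t1]; exact h1 _
  · rw [div_le_iff₀ hη] at h2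
    have : K * ((4 * dist u v + η / (2 * K)) * lam n) = (4 * K * dist u v + η / 2) * lam n := by
      field_simp
    rw [this]; linarith

theorem sh_low {s : ℕ → St X F} (hs : ∀ n, (s n).1 ∈ O) (u v : ℂ) {M : ℝ}
    (hM : K * M < dist u v / 2) :
    ∀ᶠ n in (U : Filter ℕ), ¬ Tour G' (Sh φ τ E s n u) (Sh φ τ E s n v) (M * lam n) := by
  have hK := C.q.pos
  set η := (dist u v / 2 - K * M) / 2 with hη
  have hη0 : 0 < η := by linarith
  filter_upwards [C.e3 u v η hη0, C.big ((K + 2) / η)] with n h1 h2 h3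
  have h4 := C.q.low _ _ _ (C.flip_mem (hs n) _ _ _) (C.flip_mem (hs n) _ _ _) h3
  have h5 := Cov.card h4
  simp only at h5
  rw [df_flip C.t1] at h5
  have h6 := h1 (s n).2
  rw [div_le_iff₀ hη0] at h2
  have : (dist u v / 2 - η) * lam n = K * (M * lam n) + lam n * η := by rw [hη]; ring
  linarith

theorem sh_dich {s : ℕ → St X F} (hs : ∀ n, (s n).1 ∈ O) :
    SCase G' U lam (Sh φ τ E s) ∨ LCase G' U lam (Sh φ τ E s) := by
  have hK := C.q.pos
  refine dichotomy C.c' (C.l.eventually_gt_atTop 0) ?_ ?_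
  · intro a r hr
    filter_upwards [Metric.ball_mem_nhds a (show 0 < r / (8 * K) by positivity)] with b hb
    filter_upwards [C.sh_up hs a b (η := r / 2) (by positivity), C.big 0] with n h1 h2
    refine h1.mono (mul_le_mul_of_nonneg_right ?_ h2)
    rw [Metric.mem_ball, dist_comm, lt_div_iff₀ (by positivity)] at hb
    linarith
  · intro u v huv
    have := dist_pos.2 huv
    refine ⟨dist u v / (4 * K), by positivity, C.sh_low hs u v ?_⟩
    have : K * (dist u v / (4 * K)) = dist u v / 4 := by field_simp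
    linarith

/-- a long sheet whose ends are near a leaf lies in this leaf -/
theorem near_leaf {s : ℕ → St X F} (hs : ∀ n, (s n).1 ∈ O) (c : ℕ → X' → F') {M : ℝ} (hM : 0 ≤ M)
    {u : ℂ} (hu : K * (6 * M + 2) < ‖u‖ / 2)
    (h0 : ∀ᶠ n in (U : Filter ℕ), ∃ q, Tour G' (Sh φ τ E s n 0) (c n, q) (M * lam n))
    (h1 : ∀ᶠ n in (U : Filter ℕ), ∃ q, Tour G' (Sh φ τ E s n u) (c n, q) (M * lam n)) :
    ∀ᶠ n in (U : Filter ℕ), Tour G' (φ (s n)) (c n, (φ (s n)).2) (lam n) := by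
  have far : ∀ᶠ n in (U : Filter ℕ),
      (2 * M + 2) * lam n < D G' (Sh φ τ E s n 0).2 (Sh φ τ E s n u).2 := by
    filter_upwards [h0, h1, C.sh_low hs 0 u (M := 6 * M + 2) (by simpa using hu)]
      with n ⟨q0, a0⟩ ⟨q1, a1⟩ a2
    by_contra hc
    push Not at hc
    apply a2
    have d0 := a0.dist_le
    have d1 := a1.dist_le
    simp only at d0 d1
    have : D G' q0 q1 ≤ (4 * M + 2) * lam n := by
      have := D_tri C.c' q0 (Sh φ τ E s n 0).2 q1
      have := D_tri C.c' (Sh φ τ E s n 0).2 (Sh φ τ E s n u).2 q1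
      rw [D_comm] at d0
      linarith
    exact ((a0.trans (Tour.move C.c' (c n) this)).trans a1.symm).mono (by linarith)
  rcases C.sh_dich hs with h | h
  · obtain ⟨n, a1, a2, a3⟩ := (far.and ((h 0 u 1 one_pos).and (C.big 0))).exists
    have := a2.1
    nlinarith
  · filter_upwards [far, h 0 u 1 one_pos, h0, h1] with n a1 ⟨c', b0, b1⟩ ⟨q0, a0⟩ ⟨q1, a2⟩
    have : c' = c n := by
      funext z
      by_contra hz
      have e0 := (b0.symm.trans a0).mem_dist (z := z) hz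
      have e1 := (b1.symm.trans a2).mem_dist (z := z) hz
      simp only at e0 e1
      have := D_tri C.c' (Sh φ τ E s n 0).2 z (Sh φ τ E s n u).2
      rw [D_comm z] at this
      linarith
    rw [this, C.sh_zero, one_mul] at b0
    exact b0

theorem scase [Infinite X'] (hf : ∀ p r, (Bl G' p r).Finite) {τ' : F' → F'} (ht : ∀ a, τ' a ≠ a)
    {s : ℕ → St X F} (hs : ∀ n, (s n).1 ∈ O) : SCase G' U lam (Sh φ τ E s) := by
  have hK := C.q.pos
  refine (C.sh_dich hs).resolve_right fun hL => ?_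
  have nrm : ∀ M : ℝ, 0 ≤ M → ∃ u : ℂ, K * (6 * M + 2) < ‖u‖ / 2 := fun M hM =>
    ⟨((2 * (K * (6 * M + 2)) + 1 : ℝ) : ℂ), by
      rw [Complex.norm_real, Real.norm_of_nonneg (by positivity)]; linarith⟩
  set D0 := 10 * K + 1 with hD0
  obtain ⟨u1, hu1⟩ := nrm (K * D0 + 2) (by positivity)
  set Dd := 2 * D0 + 4 * ‖u1‖ + 1 with hDd
  obtain ⟨u2, hu2⟩ := nrm (K * Dd + 2) (by positivity)
  have : Nonempty (X' → F') := ⟨(φ (s 0)).1⟩
  obtain ⟨c, hc⟩ := (hL 0 u2 1 one_pos).choice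
  have par : ∀ a : ℕ → X → F, (∀ n, a n ∈ O) →
      (∀ᶠ n in (U : Filter ℕ), Tour G (s n) (a n, (s n).2) (Dd * lam n)) →
      ∀ᶠ n in (U : Filter ℕ), Tour G' (φ (a n, (s n).2)) (c n, (φ (a n, (s n).2)).2) (lam n) := by
    intro a ha h
    have P : ∀ u, ∀ᶠ n in (U : Filter ℕ), Tour G' (Sh φ τ E s n u)
        (Sh φ τ E (fun n => (a n, (s n).2)) n u) ((K * Dd + 1) * lam n) := by
      intro u
      filter_upwards [h, C.big K] with n h1 h2
      refine (C.q.up (_, _) (_, _) (Dd * lam n) (C.flip_mem (hs n) _ _ _)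
        (C.flip_mem (ha n) _ _ _) ?_).mono (by linarith)
      show Cov G _ _ (df (flip τ _ _) (flip τ _ _)) _
      rw [df_flip2 C.t2]; exact h1
    refine C.near_leaf (s := fun n => (a n, (s n).2)) ha c (by positivity) hu2 ?_ ?_
    · filter_upwards [hc, P 0] with n h1 h2
      exact ⟨_, (h2.symm.trans h1.1).mono (by linarith)⟩
    · filter_upwards [hc, P u2] with n h1 h2
      exact ⟨_, (h2.symm.trans h1.2).mono (by linarith)⟩
  choose z hz using fun n => exists_at_dist C.c' hf (φ (s n)).2 ⌈3 * lam n⌉₊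
  let y : ℕ → St X' F' := fun n => (flip τ' (c n) {z n}, (φ (s n)).2)
  have : ∀ n, ∃ t : St X F, t.1 ∈ O ∧ ((y n).1 ∈ O' → Tour G' (y n) (φ t) K) := by
    intro n
    by_cases ht : (y n).1 ∈ O'
    · obtain ⟨s, h1, h2⟩ := C.q.surj _ ht
      exact ⟨s, h1, fun _ => h2⟩
    · exact ⟨s n, hs n, fun h => absurd h ht⟩
  choose t ht1 ht2 using this
  have zd : ∀ᶠ n in (U : Filter ℕ), 3 * lam n ≤ D G' (φ (s n)).2 (z n) ∧
      D G' (φ (s n)).2 (z n) ≤ 4 * lam n := by
    filter_upwards [C.big 1] with n h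
    unfold D
    rw [hz n]
    exact ⟨Nat.le_ceil _, by linarith [Nat.ceil_lt_add_one (show 0 ≤ 3 * lam n by linarith)]⟩
  have hy : ∀ᶠ n in (U : Filter ℕ), Tour G' (y n) (φ (t n)) K := by
    filter_upwards [hc] with n h
    apply ht2
    have h1 := h.1
    rw [C.sh_zero] at h1
    have h2 : c n ∈ O' := C.o'.cl _ (C.q.maps _ (hs n)) _ (Cov.finite h1)
    exact C.o'.cl _ h2 _ (by simp only [y]; rw [df_flip0 ht]; exact finite_singleton _)
  have st : ∀ᶠ n in (U : Filter ℕ), Tour G (s n) (t n) (D0 * lam n) := by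
    filter_upwards [hc, zd, hy, C.big K] with n h1 h2 h3 h4
    have a1 := h1.1
    rw [C.sh_zero] at a1
    have a2 : Tour G' (c n, (φ (s n)).2) (y n) (8 * lam n) := by
      unfold Tour; simp only [y]; rw [df_flip0 ht]
      exact (Cov.geo C.c' _ (z n)).loop.mono (by simp) (by linarith [h2.2])
    refine (C.q.low _ _ _ (hs n) (ht1 n) (((a1.trans a2).trans h3).mono
      (show _ ≤ 10 * lam n by linarith))).mono ?_
    rw [hD0]; linarith
  have p0 := par (fun n => (t n).1) ht1 (by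
    filter_upwards [st, C.big 0] with n h1 h2
    refine (h1.trans (Tour.move C.c (t n).1 (l := D0 * lam n) ?_)).mono ?_
    · rw [D_comm]; exact h1.dist_le
    · rw [hDd]; nlinarith [norm_nonneg u1])
  have p1 := par (fun n => flip τ (t n).1 (E n (t n).2 u1)) (fun n => C.flip_mem (ht1 n) _ _ _) (by
    filter_upwards [st, C.e2 0 u1 1 one_pos] with n h1 h2
    have a : Tour G (t n) (flip τ (t n).1 (E n (t n).2 u1), (t n).2) ((4 * ‖u1‖ + 1) * lam n) := by
      unfold Tour; simp only; rw [df_flip0 C.t1]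
      have := h2 (t n).2
      rw [C.e0, ← bot_eq_empty, bot_symmDiff] at this
      simpa using this
    refine ((h1.trans a).trans (Tour.move C.c _ (l := D0 * lam n) ?_)).mono ?_
    · rw [D_comm]; exact h1.dist_le
    · rw [hDd]; linarith)
  have mv : ∀ a : ℕ → X → F, (∀ n, a n ∈ O) → ∀ᶠ n in (U : Filter ℕ),
      Tour G' (φ (a n, (t n).2)) (φ (a n, (s n).2)) ((K * D0 + 1) * lam n) := by
    intro a ha
    filter_upwards [st, C.big K] with n h1 h2
    refine (C.q.up _ _ _ (ha n) (ha n) (Tour.move C.c (a n) (l := D0 * lam n) ?_)).mono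
      (by linarith)
    rw [D_comm]; exact h1.dist_le
  have fin := C.near_leaf ht1 c (M := K * D0 + 2) (by positivity) hu1 (by
    filter_upwards [p0, mv _ ht1] with n h1 h2
    rw [C.sh_zero]
    exact ⟨_, (h2.trans h1).mono (by linarith)⟩) (by
    filter_upwards [p1, mv _ (fun n => C.flip_mem (ht1 n) n (t n).2 u1)] with n h1 h2
    exact ⟨_, (h2.trans h1).mono (by linarith)⟩)
  obtain ⟨n, a1, a2, a3, a4⟩ := (fin.and (hy.and (zd.and (C.big K)))).exists
  have := (a2.trans a1).mem_dist (z := z n) (by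
    simp only [y]; rw [df_comm, df_flip0 ht]; rfl)
  simp only [y] at this
  linarith [a3.1]

end Ctx

end Pool.Agent.Lib.MP_a15413_al
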