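import Pool.Agent.Lib.MP_a15413_al.Fibre

set_option autoImplicit false

namespace Pool.Agent.Lib.MP_a15413_al

open Set Filter Topology
open scoped symmDiff

variable {X F X' F' : Type} {G : SimpleGraph X} {G' : SimpleGraph X'}
  {O : Set (X → F)} {O' : Set (X' → F')} {φ : St X F → St X' F'} {K : ℝ}

/-- locally finite connected graphs -/
structure Nice (G : SimpleGraph X) : Prop where
  c : G.Connected
  f : ∀ p r, (Bl G p r).Finite

/-- a fixed point free injection -/
def Sw (F : Type) : Prop := ∃ τ : F → F, (∀ a, τ a ≠ a) ∧ Function.Injective τ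

theorem exists_ctx (hG : Nice G) (hG' : Nice G') (hO : Cls O) (hO' : Cls O')
    (q : QI G G' O O' φ K) (hF : Sw F) (hs : Superlin G) {lam : ℕ → ℝ}
    (hl : Tendsto lam atTop atTop) :
    ∃ τ E, Ctx G G' O O' φ K τ (hyperfilter ℕ) lam E := by
  obtain ⟨τ, t1, t2⟩ := hF
  obtain ⟨E, e0, e1, e2, e3⟩ := sheets hG.c hG.f hs lam hl
  exact ⟨τ, E, hG.c, hG'.c, hO, hO', q, t1, t2, hl.mono_left Nat.hyperfilter_le_atTop, e0, e1,
    fun u v η h => (e2 u v η h).filter_mono Nat.hyperfilter_le_atTop,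
    fun u v η h => (e3 u v η h).filter_mono Nat.hyperfilter_le_atTop⟩

theorem exists_long (a : ℝ) : ∃ u : ℂ, a < dist 0 u / 2 :=
  ⟨((2 * |a| + 1 : ℝ) : ℂ), by
    rw [dist_zero_left, Complex.norm_real, Real.norm_of_nonneg (by positivity)]
    linarith [le_abs_self a]⟩

/-- the cursor moves sublinearly along the fibres -/
theorem thmA [Infinite X'] (hG : Nice G) (hG' : Nice G') (hO : Cls O) (hO' : Cls O')
    (q : QI G G' O O' φ K) (hF : Sw F) (hF' : Sw F') (hs : Superlin G) {ε : ℝ} (hε : 0 < ε) :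
    ∃ B : ℝ, ∀ a ∈ O, ∀ b ∈ O, ∀ p l, Tour G (a, p) (b, p) l →
      D G' (φ (a, p)).2 (φ (b, p)).2 ≤ ε * l + B := by
  by_contra hc
  push Not at hc
  choose a ha b hb p lam h1 h2 using fun n : ℕ => hc n
  have hK := q.pos
  have hl : Tendsto lam atTop atTop := by
    rw [tendsto_atTop]
    intro r
    filter_upwards [tendsto_natCast_atTop_atTop.eventually_ge_atTop (K * r + K)] with n hn
    have h3 := (q.up _ _ _ (ha n) (hb n) (h1 n)).dist_le
    have h4 := mul_nonneg hε.le (h1 n).nonneg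
    have h5 := h2 n
    by_contra h6
    push Not at h6
    nlinarith
  obtain ⟨τ, E, C⟩ := exists_ctx hG hG' hO hO' q hF hs hl
  obtain ⟨τ', ht, -⟩ := hF'
  have s1 := C.scase hG'.f ht (s := fun n => (a n, p n)) ha
  have s2 := C.scase hG'.f ht (s := fun n => (b n, p n)) hb
  obtain ⟨u, hu⟩ := exists_long (K * (2 * K + 2 + ε / 2))
  have P : ∀ n v, Tour G' (Sh φ τ E (fun n => (a n, p n)) n v) (Sh φ τ E (fun n => (b n, p n)) n v)
      (K * lam n + K) := by
    intro n v
    refine q.up (_, _) (_, _) (lam n) (C.flip_mem (ha n) _ _ _) (C.flip_mem (hb n) _ _ _) ?_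
    show Cov G _ _ (df (flip τ _ _) (flip τ _ _)) _
    rw [df_flip2 C.t2]; exact h1 n
  obtain ⟨n, a1, a2, a3, a4⟩ := ((s1 0 u (ε / 2) (by positivity)).and
    ((s2 0 u (ε / 2) (by positivity)).and ((C.sh_low (s := fun n => (a n, p n)) ha 0 u hu).and
    (C.big K)))).exists
  apply a3
  refine (((Cov.trans (P n 0) (Cov.geo' hG'.c a2.1)).trans (P n u).symm).mono ?_ (by linarith))
  intro z hz
  by_contra hn
  simp only [df, mem_union, mem_ofPred_eq, not_or, not_not, mem_empty_iff_false] at hn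
  have hz2 : z ∈ df (Sh φ τ E (fun n => (b n, p n)) n 0).1 (Sh φ τ E (fun n => (b n, p n)) n u).1 := by
    intro h
    exact hz (hn.1.1.trans (h.trans hn.2))
  have b1 := a1.2 z hz
  have b2 := a2.2 z hz2
  rw [C.sh_zero] at b1 b2
  have b3 := D_tri hG'.c (φ (a n, p n)).2 z (φ (b n, p n)).2
  rw [D_comm z] at b3
  have b4 := h2 n
  have : (0 : ℝ) ≤ n := by positivity
  linarith

/-- superlinear growth is a quasi-isometry invariant -/
theorem growth [Infinite X'] (hG : Nice G) (hG' : Nice G') (hO : Cls O) (hO' : Cls O')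
    (q : QI G G' O O' φ K) (hF : Sw F) (hF' : Sw F') (hs : Superlin G)
    (hom : ∀ p p' r, (Bl G' p r).ncard = (Bl G' p' r).ncard) : Superlin G' := by
  by_contra hc
  unfold Superlin at hc
  push Not at hc
  obtain ⟨k, hk⟩ := hc
  choose lam h1 p h2 using fun n : ℕ => hk n
  have hl : Tendsto lam atTop atTop := tendsto_atTop_mono h1 tendsto_natCast_atTop_atTop
  obtain ⟨τ, E, C⟩ := exists_ctx hG hG' hO hO' q hF hs hl
  obtain ⟨τ', ht, -⟩ := hF'
  obtain ⟨a, ha⟩ := hO.ne
  obtain ⟨x⟩ := hG.c.nonempty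
  have s1 := C.scase hG'.f ht (s := fun _ => (a, x)) (fun _ => ha)
  obtain ⟨u, hu⟩ := exists_long (K * (2 * k + 3))
  obtain ⟨n, a1, a2, a3⟩ := ((s1 0 u 1 one_pos).and
    ((C.sh_low (s := fun _ => (a, x)) (fun _ => ha) 0 u hu).and (C.big 0))).exists
  apply a2
  rw [one_mul] at a1
  refine ((ball_cov hG'.c _ a3 (hG'.f _ _)).trans (Cov.geo' hG'.c a1.1)).mono
    (fun z hz => Or.inl (a1.2 z hz)) ?_
  rw [hom _ (p n)]
  linarith [h2 n]

end Pool.Agent.Lib.MP_a15413_al
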