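import Pool.Agent.Lib.MP_a15413_al.Ends

set_option autoImplicit false

namespace Pool.Agent.Lib.MP_a15413_al

open Set Filter Topology Cardinal

variable {X F X' F' : Type} {G : SimpleGraph X} {G' : SimpleGraph X'}
  {O : Set (X → F)} {O' : Set (X' → F')} {φ : St X F → St X' F'} {K : ℝ}

theorem QI.finite [Finite X] (hG : Nice G) (hG' : Nice G') (hO' : Cls O')
    (q : QI G G' O O' φ K) : Finite X' := by
  choose l hl using fun x : X × X => Cov.exists hG.c x.1 x.2 (finite_univ (α := X))
  obtain ⟨M, hM⟩ := (finite_range l).bddAbove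
  obtain ⟨a, ha⟩ := hO'.ne
  obtain ⟨o⟩ := hG'.c.nonempty
  rw [← finite_univ_iff]
  refine (hG'.f o (K + (K * M + K) + K)).subset fun z _ => ?_
  obtain ⟨s, s1, s2⟩ := q.surj (a, o) ha
  obtain ⟨t, t1, t2⟩ := q.surj (a, z) ha
  have : Tour G s t M := (hl (s.2, t.2)).mono (subset_univ _) (hM ⟨_, rfl⟩)
  exact ((s2.trans (q.up s t M s1 t1 this)).trans t2.symm).dist_le

theorem main_graph (hG : Nice G) (hG' : Nice G') (hv : VT G) (hv' : VT G') (hO : Cls O)
    (hO' : Cls O') (hF : Sw F) (hF' : Sw F') (q : QI G G' O O' φ K) : #(En G) = #(En G') := by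
  have := hG.c.nonempty
  obtain ⟨ψ, K', q', -⟩ := q.inv hO
  cases finite_or_infinite X with
  | inl h =>
    have := q.finite hG hG' hO'
    rw [ends_zero, ends_zero]
  | inr h =>
    have h' : Infinite X' := by
      by_contra hn
      have := not_infinite_iff_finite.1 hn
      have := q'.finite hG' hG hO
      exact not_finite X
    by_cases hs : Superlin G
    · have hs' := growth hG hG' hO hO' q hF hF' hs (hv'.ball hG'.c)
      by_cases h2 : Multi2 G
      · have h2' : Multi2 G' := by
          by_contra hn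
          obtain ⟨A, R, c, -, i1, i2⟩ := h2.cut hG.c (Classical.arbitrary X)
          exact caseA hG' hG hO' hO q' hF' hF hs (oneEnd hG' hv' hn) c i1 i2
        rw [ends_many hG hv (by_contra fun h3 => not_superlin hG hv h2 h3 hs),
          ends_many hG' hv' (by_contra fun h3 => not_superlin hG' hv' h2' h3 hs')]
      · have h2' : ¬ Multi2 G' := by
          intro hn
          obtain ⟨A, R, c, -, i1, i2⟩ := hn.cut hG'.c (Classical.arbitrary X')
          exact caseA hG hG' hO hO' q hF hF' hs' (oneEnd hG hv h2) c i1 i2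
        rw [ends_one hG h2, ends_one hG' h2']
    · have hs' : ¬ Superlin G' := fun h => hs (growth hG' hG hO' hO q' hF' hF h (hv.ball hG.c))
      rw [ends_two hG (by_contra fun h2 => hs (superlin_of_one hG hv h2))
          (fun h3 => hs (h3.superlin hG hv)),
        ends_two hG' (by_contra fun h2 => hs' (superlin_of_one hG' hv' h2))
          (fun h3 => hs' (h3.superlin hG' hv'))]

/-- a graph which is a model of the lamplighter graph -/
structure Model {Y : Type} (G : SimpleGraph X) (O : Set (X → F)) (Γ : SimpleGraph Y)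
    (st : Y → St X F) (el : St X F → Y) (c : ℝ) : Prop where
  pos : 1 ≤ c
  mem : ∀ g, (st g).1 ∈ O
  inv : ∀ s, s.1 ∈ O → st (el s) = s
  inv2 : ∀ g, el (st g) = g
  up : ∀ g h, Tour G (st g) (st h) (c * D Γ g h)
  low : ∀ g h l, Tour G (st g) (st h) l → D Γ g h ≤ c * l + c

theorem Model.qi {Y Y' : Type} {Γ : SimpleGraph Y} {Γ' : SimpleGraph Y'} {st : Y → St X F}
    {el : St X F → Y} {c : ℝ} {st' : Y' → St X' F'} {el' : St X' F' → Y'} {c' : ℝ}
    (m : Model G O Γ st el c) (m' : Model G' O' Γ' st' el' c') (f : Y → Y') {K C : ℝ} (hK : 0 < K)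
    (hC : 0 ≤ C) (h1 : ∀ x y, D Γ' (f x) (f y) ≤ K * D Γ x y + C ∧ D Γ x y ≤ K * D Γ' (f x) (f y) + C)
    (h2 : ∀ z, ∃ x, D Γ' z (f x) ≤ C) :
    QI G G' O O' (fun s => st' (f (el s))) (c * c' * K + (c + c') * C + 1) := by
  have hc := m.pos
  have hc' := m'.pos
  have a1 : 0 ≤ c * C := by positivity
  have a2 : 0 ≤ c' * C := by positivity
  have a3 : 0 ≤ c * c' * K := by positivity
  refine ⟨by nlinarith, fun s _ => m'.mem _, ?_, ?_, ?_⟩
  · intro s t l hs ht h
    have hl := h.nonneg
    rw [← m.inv s hs, ← m.inv t ht] at h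
    have b1 := m.low _ _ _ h
    have b2 := (h1 (el s) (el t)).1
    refine (m'.up _ _).mono ?_
    have b3 : D Γ' (f (el s)) (f (el t)) ≤ K * (c * l + c) + C := by nlinarith
    have b4 := mul_le_mul_of_nonneg_left b3 (show 0 ≤ c' by linarith)
    nlinarith [mul_nonneg a1 hl, mul_nonneg a2 hl]
  · intro s t l hs ht h
    have hl := h.nonneg
    have b1 := m'.low _ _ _ h
    have b2 := (h1 (el s) (el t)).2
    have := m.up (el s) (el t)
    rw [m.inv s hs, m.inv t ht] at this
    refine this.mono ?_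
    have b3 : D Γ (el s) (el t) ≤ K * (c' * l + c') + C := by nlinarith
    have b4 := mul_le_mul_of_nonneg_left b3 (show 0 ≤ c by linarith)
    nlinarith [mul_nonneg a1 hl, mul_nonneg a2 hl]
  · intro t ht
    obtain ⟨x, hx⟩ := h2 (el' t)
    refine ⟨st x, m.mem x, ?_⟩
    have := m'.up (el' t) (f x)
    rw [m'.inv t ht] at this
    rw [m.inv2]
    refine this.mono ?_
    have b4 := mul_le_mul_of_nonneg_left hx (show 0 ≤ c' by linarith)
    nlinarith

end Pool.Agent.Lib.MP_a15413_al
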