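import Pool.Agent.Lib.MP_a15413_al.Tour

set_option autoImplicit false

namespace Pool.Agent.Lib.MP_a15413_al

open Set Filter Topology
open scoped symmDiff

variable {X F : Type} {G : SimpleGraph X}

/-- uniformly superlinear growth -/
def Superlin (G : SimpleGraph X) : Prop :=
  ∀ k : ℝ, ∃ r0 : ℝ, ∀ r ≥ r0, ∀ p, k * r ≤ (Bl G p r).ncard

theorem diag_exists (P : ℕ → ℕ → Prop) (h : ∀ k, ∀ᶠ n in atTop, P k n) :
    ∃ k : ℕ → ℕ, Tendsto k atTop atTop ∧ ∀ᶠ n in atTop, P (k n) n := by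
  classical
  refine ⟨fun n => Nat.findGreatest (fun k => P k n) n, ?_, ?_⟩
  · rw [tendsto_atTop]
    intro k
    filter_upwards [h k, eventually_ge_atTop k] with n h1 h2
    exact Nat.le_findGreatest h2 h1
  · filter_upwards [h 0] with n h1
    exact Nat.findGreatest_spec (P := fun k => P k n) (Nat.zero_le n) h1

/-- initial segments of a list -/
def Pre (l : List X) (i : ℕ) : Set X := {z | z ∈ l.take i}

theorem pre_symmDiff {l : List X} (hl : l.Nodup) {i j : ℕ} (hij : i ≤ j) :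
    Pre l i ∆ Pre l j = {z | z ∈ (l.take j).drop i} := by
  have h1 : l.take j = l.take i ++ (l.take j).drop i := by
    conv_lhs => rw [← List.take_append_drop i (l.take j)]
    rw [List.take_take, min_eq_left hij]
  have h2 : (l.take j).Nodup := hl.sublist (List.take_sublist _ _)
  rw [h1, List.nodup_append] at h2
  ext z
  have h3 : z ∈ l.take j ↔ z ∈ l.take i ∨ z ∈ (l.take j).drop i := by
    conv_lhs => rw [h1]
    exact List.mem_append
  have h4 : z ∈ l.take i → z ∈ (l.take j).drop i → False := fun a b => h2.2.2 z a z b rfl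
  simp only [Pre, mem_symmDiff, mem_ofPred_eq, h3]
  tauto

theorem pre_line (hG : G.Connected) (p : X) {l : List X} (hl : l.Nodup) {r : ℝ} (hr : 0 ≤ r)
    (h : List.IsChain (Rl G p) l) (hb : ∀ z ∈ l, D G p z ≤ r) {i j : ℕ} (hi : i ≤ l.length)
    (hj : j ≤ l.length) :
    Cov G p p (Pre l i ∆ Pre l j) (2 * r + 2 * |(i : ℝ) - j|) ∧
      ((Pre l i ∆ Pre l j).ncard : ℝ) = |(i : ℝ) - j| := by
  classical
  wlog hij : i ≤ j generalizing i j
  · have := this hj hi (by omega)
    rwa [symmDiff_comm, abs_sub_comm] at this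
  have hlen : (((l.take j).drop i).length : ℝ) = |(i : ℝ) - j| := by
    rw [List.length_drop, List.length_take, min_eq_left hj, abs_sub_comm, abs_of_nonneg]
    · rw [Nat.cast_sub hij]
    · have : (i : ℝ) ≤ j := by exact_mod_cast hij
      linarith
  rw [pre_symmDiff hl hij, ← hlen]
  constructor
  · exact closed_cov hG p _ hr ((h.take j).drop i)
      (fun z hz => hb z (List.mem_of_mem_take (List.mem_of_mem_drop hz)))
  · have h2 : ((l.take j).drop i).Nodup :=
      hl.sublist ((List.drop_sublist _ _).trans (List.take_sublist _ _))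
    rw [← List.toFinset_card_of_nodup h2, ← ncard_coe_finset]
    congr 2
    ext z; simp

/-- clamped index -/
noncomputable def cl (q : ℕ) (x : ℝ) : ℕ := min (2 * q) (Int.toNat (q + ⌊x⌋))

theorem cl_le (q : ℕ) (x : ℝ) : cl q x ≤ 2 * q := min_le_left _ _

theorem cl_lip (q : ℕ) (x y : ℝ) : |(cl q x : ℝ) - cl q y| ≤ |x - y| + 1 := by
  have h1 : |((cl q x : ℤ) - cl q y)| ≤ |⌊x⌋ - ⌊y⌋| := by
    unfold cl
    rw [abs_le]
    rcases abs_cases (⌊x⌋ - ⌊y⌋) with h | h <;> constructor <;> omega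
  have h2 : |(cl q x : ℝ) - cl q y| ≤ |(⌊x⌋ : ℝ) - ⌊y⌋| := by exact_mod_cast h1
  refine h2.trans ?_
  have := Int.floor_le x
  have := Int.floor_le y
  have := Int.lt_floor_add_one x
  have := Int.lt_floor_add_one y
  rw [abs_le]
  constructor
  · linarith [neg_abs_le (x - y)]
  · linarith [le_abs_self (x - y)]

theorem cl_eq (q : ℕ) {x : ℝ} (h : |x| + 1 ≤ q) : (cl q x : ℝ) = q + ⌊x⌋ := by
  have h1 := Int.floor_le x
  have h2 := Int.lt_floor_add_one x
  have h3 : (-(q : ℤ) : ℤ) ≤ ⌊x⌋ := by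
    have : (-(q : ℝ)) ≤ ⌊x⌋ := by linarith [neg_abs_le x]
    exact_mod_cast this
  have h4 : ⌊x⌋ ≤ (q : ℤ) := by
    have : (⌊x⌋ : ℝ) ≤ q := by linarith [le_abs_self x]
    exact_mod_cast this
  have : (cl q x : ℤ) = q + ⌊x⌋ := by unfold cl; omega
  exact_mod_cast this

theorem cl_low (q : ℕ) {x y : ℝ} (hx : |x| + 1 ≤ q) (hy : |y| + 1 ≤ q) :
    |x - y| - 1 ≤ |(cl q x : ℝ) - cl q y| := by
  rw [cl_eq q hx, cl_eq q hy]
  have := Int.floor_le x
  have := Int.floor_le y
  have := Int.lt_floor_add_one x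
  have := Int.lt_floor_add_one y
  rcases abs_cases (x - y) with h | h
  · linarith [le_abs_self ((q : ℝ) + ⌊x⌋ - (q + ⌊y⌋))]
  · linarith [neg_abs_le ((q : ℝ) + ⌊x⌋ - (q + ⌊y⌋))]

theorem sd_key (a a' a0 b b' b0 : Set X) (h : ∀ z, z ∈ a ∨ z ∈ a' → z ∈ b ∨ z ∈ b' → False) :
    ((a ∆ a0) ∆ (b ∆ b0)) ∆ ((a' ∆ a0) ∆ (b' ∆ b0)) = (a ∆ a') ∪ (b ∆ b') := by
  ext z
  have := h z
  simp only [mem_symmDiff, mem_union]
  by_cases h1 : z ∈ a <;> by_cases h2 : z ∈ a' <;> by_cases h3 : z ∈ b <;> by_cases h4 : z ∈ b' <;>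
    by_cases h5 : z ∈ a0 <;> by_cases h6 : z ∈ b0 <;> simp_all

/-- one sheet at a fixed scale -/
theorem sheet_one (hG : G.Connected) (hf : ∀ p r, (Bl G p r).Finite) (p : X) {r : ℝ} (hr : 0 ≤ r)
    (lam : ℝ) (hlam : 0 ≤ lam) : ∃ E : ℂ → Set X, E 0 = ∅ ∧
      (∀ u v, Cov G p p (E u ∆ E v) (4 * r + 4 * (dist u v * lam + 1))) ∧
      ∀ u v : ℂ, 4 * (‖u‖ * lam + 2) ≤ (Bl G p r).ncard → 4 * (‖v‖ * lam + 2) ≤ (Bl G p r).ncard →
        dist u v / 2 * lam - 1 ≤ (E u ∆ E v).ncard := by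
  obtain ⟨l, h1, h2, h3, h4⟩ := exists_chain hG p r (hf p r)
  set q := l.length / 4 with hq
  let l1 := l.take (2 * q)
  let l2 := l.drop (2 * q)
  have n1 : l1.Nodup := h1.sublist (List.take_sublist _ _)
  have n2 : l2.Nodup := h1.sublist (List.drop_sublist _ _)
  have dj : ∀ z, z ∈ l1 → z ∈ l2 → False := by
    have := h1
    rw [← List.take_append_drop (2 * q) l, List.nodup_append] at this
    exact fun z a b => this.2.2 z a z b rfl
  have len1 : 2 * q ≤ l1.length := by simp only [l1, List.length_take]; omega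
  have len2 : 2 * q ≤ l2.length := by simp only [l2, List.length_drop]; omega
  have L1 := fun (x y : ℝ) => pre_line hG p n1 hr (h3.take _)
    (fun z hz => (h2 z).1 (List.mem_of_mem_take hz)) ((cl_le q x).trans len1)
    ((cl_le q y).trans len1)
  have L2 := fun (x y : ℝ) => pre_line hG p n2 hr (h3.drop _)
    (fun z hz => (h2 z).1 (List.mem_of_mem_drop hz)) ((cl_le q x).trans len2)
    ((cl_le q y).trans len2)
  let A : ℝ → Set X := fun x => Pre l1 (cl q (x * lam))
  let B : ℝ → Set X := fun x => Pre l2 (cl q (x * lam))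
  have hA : ∀ x, ∀ z ∈ A x, z ∈ l1 := fun x z hz => List.mem_of_mem_take hz
  have hB : ∀ x, ∀ z ∈ B x, z ∈ l2 := fun x z hz => List.mem_of_mem_take hz
  have key : ∀ u v : ℂ, ((A u.re ∆ A 0) ∆ (B u.im ∆ B 0)) ∆ ((A v.re ∆ A 0) ∆ (B v.im ∆ B 0)) =
      (A u.re ∆ A v.re) ∪ (B u.im ∆ B v.im) := by
    intro u v
    refine sd_key _ _ _ _ _ _ fun z h h' => dj z ?_ ?_
    · rcases h with h | h <;> exact hA _ z h
    · rcases h' with h | h <;> exact hB _ z h
  have ab : ∀ x y : ℝ, |x * lam - y * lam| = |x - y| * lam := fun x y => by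
    rw [← sub_mul, abs_mul, abs_of_nonneg hlam]
  have cv : ∀ u v : ℂ, Cov G p p ((A u.re ∆ A v.re) ∪ (B u.im ∆ B v.im))
      (4 * r + 4 * (dist u v * lam + 1)) := by
    intro u v
    refine ((L1 (u.re * lam) (v.re * lam)).1.trans (L2 (u.im * lam) (v.im * lam)).1).mono le_rfl ?_
    have a1 := cl_lip q (u.re * lam) (v.re * lam)
    have a2 := cl_lip q (u.im * lam) (v.im * lam)
    rw [ab] at a1 a2
    have b1 : |u.re - v.re| ≤ dist u v := by
      rw [Complex.dist_eq, ← Complex.sub_re]; exact Complex.abs_re_le_norm _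
    have b2 : |u.im - v.im| ≤ dist u v := by
      rw [Complex.dist_eq, ← Complex.sub_im]; exact Complex.abs_im_le_norm _
    have := mul_le_mul_of_nonneg_right b1 hlam
    have := mul_le_mul_of_nonneg_right b2 hlam
    linarith
  refine ⟨fun u => (A u.re ∆ A 0) ∆ (B u.im ∆ B 0), by simp, fun u v => ?_, fun u v hu hv => ?_⟩
  · rw [key]; exact cv u v
  · rw [key]
    have hq' : ((Bl G p r).ncard : ℝ) ≤ 4 * q + 3 := by
      rw [← h4]
      have : l.length ≤ 4 * q + 3 := by omega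
      exact_mod_cast this
    have sm : ∀ (w : ℂ) (x : ℝ), |x| ≤ ‖w‖ → 4 * (‖w‖ * lam + 2) ≤ (Bl G p r).ncard →
        |x * lam| + 1 ≤ q := by
      intro w x h h'
      rw [abs_mul, abs_of_nonneg hlam]
      have := mul_le_mul_of_nonneg_right h hlam
      linarith
    have a1 := cl_low q (sm u _ (Complex.abs_re_le_norm u) hu) (sm v _ (Complex.abs_re_le_norm v) hv)
    have a2 := cl_low q (sm u _ (Complex.abs_im_le_norm u) hu) (sm v _ (Complex.abs_im_le_norm v) hv)
    rw [ab, ← (L1 _ _).2] at a1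
    rw [ab, ← (L2 _ _).2] at a2
    have fin := (cv u v).finite
    have c1 : ((A u.re ∆ A v.re).ncard : ℝ) ≤ ((A u.re ∆ A v.re) ∪ (B u.im ∆ B v.im)).ncard := by
      exact_mod_cast ncard_le_ncard subset_union_left fin
    have c2 : ((B u.im ∆ B v.im).ncard : ℝ) ≤ ((A u.re ∆ A v.re) ∪ (B u.im ∆ B v.im)).ncard := by
      exact_mod_cast ncard_le_ncard subset_union_right fin
    have b : dist u v ≤ |u.re - v.re| + |u.im - v.im| := by
      rw [Complex.dist_eq, ← Complex.sub_re, ← Complex.sub_im]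
      exact Complex.norm_le_abs_re_add_abs_im _
    have := mul_le_mul_of_nonneg_right b hlam
    simp only [A, B] at c1 c2 ⊢
    linarith

/-- the family of sheets along a sequence of scales -/
theorem sheets (hG : G.Connected) (hf : ∀ p r, (Bl G p r).Finite) (hs : Superlin G)
    (lam : ℕ → ℝ) (hl : Tendsto lam atTop atTop) :
    ∃ E : ℕ → X → ℂ → Set X, (∀ n p, E n p 0 = ∅) ∧ (∀ n p u, (E n p u).Finite) ∧
      (∀ u v, ∀ η > 0, ∀ᶠ n in atTop, ∀ p,
        Cov G p p (E n p u ∆ E n p v) ((4 * dist u v + η) * lam n)) ∧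
      ∀ u v, ∀ η > 0, ∀ᶠ n in atTop, ∀ p,
        (dist u v / 2 - η) * lam n ≤ (E n p u ∆ E n p v).ncard := by
  obtain ⟨k, hk, hP⟩ := diag_exists
    (fun k n => ∀ p, (k + 1 : ℝ) * lam n ≤ (Bl G p (lam n / (k + 1))).ncard) (by
      intro k
      obtain ⟨r0, hr0⟩ := hs ((k + 1 : ℝ) ^ 2)
      have hk : (0 : ℝ) < k + 1 := by positivity
      filter_upwards [hl.eventually_ge_atTop (r0 * (k + 1))] with n hn p
      have := hr0 (lam n / (k + 1)) (by rw [ge_iff_le, le_div_iff₀ hk]; exact hn) p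
      refine le_trans (le_of_eq ?_) this
      field_simp)
  have hk' : Tendsto (fun n => (k n + 1 : ℝ)) atTop atTop :=
    tendsto_atTop_add_const_right _ _ (tendsto_natCast_atTop_atTop.comp hk)
  choose E h0 h1 h2 using fun n p => sheet_one hG hf p
    (r := |lam n| / (k n + 1)) (by positivity) |lam n| (abs_nonneg _)
  refine ⟨E, h0, fun n p u => ?_, fun u v η hη => ?_, fun u v η hη => ?_⟩
  · have := (h1 n p u 0).finite
    rwa [h0, ← bot_eq_empty, symmDiff_bot] at this
  · filter_upwards [hl.eventually_ge_atTop (8 / η), hk'.eventually_ge_atTop (8 / η)] with n a b p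
    have l0 : 0 ≤ lam n := le_trans (by positivity) a
    refine (h1 n p u v).mono le_rfl ?_
    rw [abs_of_nonneg l0]
    have c : lam n / (k n + 1) ≤ η / 8 * lam n := by
      rw [div_le_iff₀ (by positivity)]
      rw [div_le_iff₀ hη] at b
      nlinarith
    rw [div_le_iff₀ hη] at a
    nlinarith
  · filter_upwards [hl.eventually_ge_atTop (1 / η), hl.eventually_ge_atTop 1, hP,
      hk'.eventually_ge_atTop (4 * ‖u‖ + 8), hk'.eventually_ge_atTop (4 * ‖v‖ + 8)]
      with n a a1 hn b c p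
    have l0 : 0 ≤ lam n := by linarith
    have := h2 n p u v
    rw [abs_of_nonneg l0] at this
    have d := this (le_trans (by nlinarith) (hn p)) (le_trans (by nlinarith) (hn p))
    rw [div_le_iff₀ hη] at a
    nlinarith

end Pool.Agent.Lib.MP_a15413_al
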