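import Mathlib

set_option autoImplicit false

namespace Pool.Agent.Lib.MP_a15413_al

open Set Filter Topology

variable {X F : Type} {G : SimpleGraph X}

/-- real valued graph distance -/
noncomputable def D (G : SimpleGraph X) (x y : X) : ℝ := G.dist x y

theorem D_nonneg (x y : X) : 0 ≤ D G x y := by unfold D; positivity
theorem D_comm (x y : X) : D G x y = D G y x := by unfold D; rw [G.dist_comm]
@[simp] theorem D_self (x : X) : D G x x = 0 := by unfold D; simp
theorem D_tri (hG : G.Connected) (x y z : X) : D G x z ≤ D G x y + D G y z := by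
  unfold D; exact_mod_cast hG.dist_triangle
theorem D_adj {x y : X} (h : G.Adj x y) : D G x y = 1 := by
  unfold D; exact_mod_cast SimpleGraph.dist_eq_one_iff_adj.2 h

/-- a walk from p to q of length at most l visiting A -/
def Cov (G : SimpleGraph X) (p q : X) (A : Set X) (l : ℝ) : Prop :=
  ∃ w : G.Walk p q, (w.length : ℝ) ≤ l ∧ ∀ z ∈ A, z ∈ w.support

theorem Cov.mono {p q : X} {A B : Set X} {l l' : ℝ} (h : Cov G p q A l) (hB : B ⊆ A)
    (hl : l ≤ l') : Cov G p q B l' := by
  obtain ⟨w, h1, h2⟩ := h
  exact ⟨w, h1.trans hl, fun z hz => h2 z (hB hz)⟩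

theorem Cov.symm {p q : X} {A : Set X} {l : ℝ} (h : Cov G p q A l) : Cov G q p A l := by
  obtain ⟨w, h1, h2⟩ := h
  exact ⟨w.reverse, by simpa using h1, fun z hz => by simpa using h2 z hz⟩

theorem Cov.trans {p q r : X} {A B : Set X} {l l' : ℝ} (h : Cov G p q A l) (h' : Cov G q r B l') :
    Cov G p r (A ∪ B) (l + l') := by
  obtain ⟨w, h1, h2⟩ := h
  obtain ⟨w', h1', h2'⟩ := h'
  refine ⟨w.append w', by rw [SimpleGraph.Walk.length_append]; push_cast; linarith, ?_⟩
  intro z hz
  rw [SimpleGraph.Walk.mem_support_append_iff]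
  exact hz.imp (h2 z) (h2' z)

theorem Cov.nonneg {p q : X} {A : Set X} {l : ℝ} (h : Cov G p q A l) : 0 ≤ l := by
  obtain ⟨w, h1, -⟩ := h
  exact le_trans (by positivity) h1

theorem Cov.dist_le {p q : X} {A : Set X} {l : ℝ} (h : Cov G p q A l) : D G p q ≤ l := by
  obtain ⟨w, h1, -⟩ := h
  exact le_trans (by unfold D; exact_mod_cast SimpleGraph.dist_le w) h1

theorem supp_dist {p q z : X} (w : G.Walk p q) (hz : z ∈ w.support) :
    D G p z ≤ w.length := by
  classical
  unfold D
  exact_mod_cast (SimpleGraph.dist_le (w.takeUntil z hz)).trans (w.length_takeUntil_le_length hz)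

theorem Cov.mem_dist {p q z : X} {A : Set X} {l : ℝ} (h : Cov G p q A l) (hz : z ∈ A) :
    D G p z ≤ l := by
  obtain ⟨w, h1, h2⟩ := h
  exact (supp_dist w (h2 z hz)).trans h1

theorem Cov.finite {p q : X} {A : Set X} {l : ℝ} (h : Cov G p q A l) : A.Finite := by
  obtain ⟨w, -, h2⟩ := h
  exact (List.finite_toSet w.support).subset h2

theorem Cov.card {p q : X} {A : Set X} {l : ℝ} (h : Cov G p q A l) : (A.ncard : ℝ) ≤ l + 1 := by
  classical
  obtain ⟨w, h1, h2⟩ := h
  have : A.ncard ≤ w.length + 1 := by
    rw [← w.length_support]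
    calc A.ncard ≤ (w.support.toFinset : Set X).ncard :=
          ncard_le_ncard (fun z hz => by simpa using h2 z hz) (Finset.finite_toSet _)
      _ = w.support.toFinset.card := ncard_coe_finset _
      _ ≤ _ := List.toFinset_card_le _
  have h3 : (A.ncard : ℝ) ≤ w.length + 1 := by exact_mod_cast this
  linarith

theorem Cov.geo (hG : G.Connected) (p q : X) : Cov G p q {p, q} (D G p q) := by
  obtain ⟨w, hw⟩ := hG.exists_walk_length_eq_dist p q
  refine ⟨w, by unfold D; rw [hw], ?_⟩
  rintro z (rfl | rfl)
  · simp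
  · simp

theorem Cov.geo' (hG : G.Connected) {p q : X} {l : ℝ} (h : D G p q ≤ l) : Cov G p q ∅ l :=
  (Cov.geo hG p q).mono (empty_subset _) h

theorem Cov.refl (p : X) : Cov G p p {p} 0 := ⟨.nil, by simp, by simp⟩

/-- go and come back -/
theorem Cov.loop {p q : X} {A : Set X} {l : ℝ} (h : Cov G p q A l) : Cov G p p A (2 * l) :=
  (h.trans h.symm).mono subset_union_left (by linarith)

theorem Cov.exists (hG : G.Connected) (p q : X) {A : Set X} (hA : A.Finite) :
    ∃ l, Cov G p q A l := by
  induction A, hA using Set.Finite.induction_on with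
  | empty => exact ⟨_, Cov.geo' hG le_rfl⟩
  | @insert a s _ _ ih =>
    obtain ⟨l, hl⟩ := ih
    refine ⟨_, ((Cov.geo hG p a).loop.trans hl).mono ?_ le_rfl⟩
    rintro z (rfl | hz)
    · simp
    · exact Or.inr hz

/-- states -/
abbrev St (X F : Type) := (X → F) × X

/-- the set where two lamp configurations differ -/
def df (a b : X → F) : Set X := {z | a z ≠ b z}

theorem df_comm (a b : X → F) : df a b = df b a := by ext z; simp [df, eq_comm]
theorem df_tri (a b c : X → F) : df a c ⊆ df a b ∪ df b c := by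
  intro z hz
  by_contra h
  simp only [df, mem_union, mem_ofPred_eq, not_or, not_not] at h hz
  exact hz (h.1.trans h.2)
@[simp] theorem df_self (a : X → F) : df a a = ∅ := by simp [df]

def Tour (G : SimpleGraph X) (s t : St X F) (l : ℝ) : Prop := Cov G s.2 t.2 (df s.1 t.1) l

theorem Tour.mono {s t : St X F} {l l' : ℝ} (h : Tour G s t l) (hl : l ≤ l') : Tour G s t l' :=
  Cov.mono h le_rfl hl
theorem Tour.symm {s t : St X F} {l : ℝ} (h : Tour G s t l) : Tour G t s l := by
  unfold Tour at *; rw [df_comm]; exact h.symm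
theorem Tour.trans {s t u : St X F} {l l' : ℝ} (h : Tour G s t l) (h' : Tour G t u l') :
    Tour G s u (l + l') := (Cov.trans h h').mono (df_tri _ _ _) le_rfl
theorem Tour.dist_le {s t : St X F} {l : ℝ} (h : Tour G s t l) : D G s.2 t.2 ≤ l := Cov.dist_le h
theorem Tour.mem_dist {s t : St X F} {l : ℝ} (h : Tour G s t l) {z : X} (hz : z ∈ df s.1 t.1) :
    D G s.2 z ≤ l := Cov.mem_dist h hz
theorem Tour.nonneg {s t : St X F} {l : ℝ} (h : Tour G s t l) : 0 ≤ l := Cov.nonneg h
theorem Tour.move (hG : G.Connected) (c : X → F) {p q : X} {l : ℝ} (h : D G p q ≤ l) :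
    Tour G (c, p) (c, q) l := by
  unfold Tour; simpa using Cov.geo' hG h

/-- the depth first search relation -/
def Rl (G : SimpleGraph X) (p a b : X) : Prop := D G a b + D G p b ≤ D G p a + 2

theorem chain_cov (hG : G.Connected) (p : X) : ∀ (l : List X) (a : X),
    List.IsChain (Rl G p) (a :: l) →
    ∃ b, Cov G a b {z | z ∈ a :: l} (D G p a - D G p b + 2 * l.length) := by
  intro l
  induction l with
  | nil => intro a _; exact ⟨a, (Cov.refl a).mono (by simp) (by simp)⟩
  | cons c l ih =>
    intro a h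
    rw [List.isChain_cons_cons] at h
    obtain ⟨b, hb⟩ := ih c h.2
    refine ⟨b, ((Cov.geo hG a c).trans hb).mono ?_ ?_⟩
    · intro z hz
      simp only [List.mem_cons, mem_ofPred_eq, mem_union, mem_insert_iff, mem_singleton_iff] at hz ⊢
      tauto
    · have := h.1
      unfold Rl at this
      simp only [List.length_cons]; push_cast; linarith

theorem closed_cov (hG : G.Connected) (p : X) (l : List X) {r : ℝ} (hr : 0 ≤ r)
    (h : List.IsChain (Rl G p) l) (hl : ∀ z ∈ l, D G p z ≤ r) :
    Cov G p p {z | z ∈ l} (2 * r + 2 * l.length) := by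
  cases l with
  | nil => exact (Cov.refl p).mono (by simp) (by simp; linarith)
  | cons a l =>
    obtain ⟨b, hb⟩ := chain_cov hG p l a h
    refine (((Cov.geo hG p a).trans hb).trans (Cov.geo hG b p)).mono ?_ ?_
    · intro z hz; exact Or.inl (Or.inr hz)
    · have := hl a (by simp)
      rw [D_comm b p]
      simp only [List.length_cons]; push_cast; linarith

theorem exists_parent (hG : G.Connected) {p z : X} (h : z ≠ p) :
    ∃ y, G.Adj y z ∧ G.dist p y + 1 = G.dist p z := by
  obtain ⟨w, hw⟩ := hG.exists_walk_length_eq_dist z p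
  cases w with
  | nil => exact absurd rfl h
  | @cons _ y _ a w =>
    refine ⟨y, a.symm, ?_⟩
    have h1 : G.dist y p ≤ w.length := SimpleGraph.dist_le w
    have h2 : G.dist z p ≤ G.dist z y + G.dist y p := hG.dist_triangle
    rw [SimpleGraph.dist_eq_one_iff_adj.2 a] at h2
    simp only [SimpleGraph.Walk.length_cons] at hw
    rw [G.dist_comm (u := p) (v := y), G.dist_comm (u := p) (v := z)]
    omega

theorem exists_chain_aux (hG : G.Connected) (p : X) : ∀ (n : ℕ) (A : Finset X), A.card = n →
    (∀ z ∈ A, z ≠ p → ∃ y ∈ A, G.Adj y z ∧ G.dist p y + 1 = G.dist p z) →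
    ∃ l : List X, l.Nodup ∧ (∀ z, z ∈ l ↔ z ∈ A) ∧ List.IsChain (Rl G p) l := by
  classical
  intro n
  induction n with
  | zero =>
    intro A hA _
    rw [Finset.card_eq_zero] at hA
    subst hA
    exact ⟨[], by simp, by simp, by simp⟩
  | succ n ih =>
    intro A hA H
    have hne : A.Nonempty := by rw [← Finset.card_pos]; omega
    obtain ⟨z, hz, hmax⟩ := A.exists_max_image (G.dist p) hne
    obtain ⟨l, hl1, hl2, hl3⟩ := ih (A.erase z) (by rw [Finset.card_erase_of_mem hz]; omega) (by
      intro x hx hxp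
      obtain ⟨y, hy, h1, h2⟩ := H x (Finset.mem_of_mem_erase hx) hxp
      refine ⟨y, Finset.mem_erase.2 ⟨?_, hy⟩, h1, h2⟩
      rintro rfl
      have := hmax x (Finset.mem_of_mem_erase hx)
      omega)
    have hzl : z ∉ l := by rw [hl2]; simp
    by_cases hzp : z = p
    · subst hzp
      have : l = [] := by
        rw [List.eq_nil_iff_forall_not_mem]
        intro x hx
        rw [hl2, Finset.mem_erase] at hx
        have h1 := hmax x hx.2
        simp only [SimpleGraph.dist_self, Nat.le_zero] at h1
        rw [hG.dist_eq_zero_iff] at h1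
        exact hx.1 h1.symm
      subst this
      refine ⟨[z], by simp, ?_, by simp⟩
      intro x
      have := hl2 x
      simp only [List.not_mem_nil, Finset.mem_erase, false_iff, not_and] at this
      simp only [List.mem_singleton]
      constructor
      · rintro rfl; exact hz
      · intro hx; by_contra h; exact this h hx
    · obtain ⟨y, hy, h1, h2⟩ := H z hz hzp
      have hyl : y ∈ l := by
        rw [hl2, Finset.mem_erase]
        exact ⟨h1.ne, hy⟩
      obtain ⟨l1, l2, rfl⟩ := List.append_of_mem hyl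
      have h2' : D G p y + 1 = D G p z := by unfold D; exact_mod_cast h2
      refine ⟨l1 ++ y :: z :: l2, ?_, ?_, ?_⟩
      · have : (l1 ++ y :: z :: l2).Perm (z :: (l1 ++ y :: l2)) := by
          have := @List.perm_middle _ z (l1 ++ [y]) l2
          simpa using this
        rw [this.nodup_iff, List.nodup_cons]
        exact ⟨hzl, hl1⟩
      · intro x
        have := hl2 x
        simp only [List.mem_append, List.mem_cons, Finset.mem_erase] at this ⊢
        by_cases hx : x = z
        · subst hx; simp [hz]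
        · simp only [hx, false_or]; rw [this]; simp [hx]
      · rw [List.isChain_append_cons_cons]
        rw [List.isChain_split] at hl3
        refine ⟨hl3.1, ?_, ?_⟩
        · unfold Rl; rw [D_adj h1]; linarith
        · have h4 := hl3.2
          rw [List.isChain_cons] at h4 ⊢
          refine ⟨fun x hx => ?_, h4.2⟩
          have h5 := h4.1 x hx
          unfold Rl at h5 ⊢
          have := D_tri hG z y x
          rw [D_adj h1.symm] at this
          linarith

/-- closed balls -/
def Bl (G : SimpleGraph X) (p : X) (r : ℝ) : Set X := {z | D G p z ≤ r}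

theorem exists_chain (hG : G.Connected) (p : X) (r : ℝ) (hf : (Bl G p r).Finite) :
    ∃ l : List X, l.Nodup ∧ (∀ z, z ∈ l ↔ z ∈ Bl G p r) ∧ List.IsChain (Rl G p) l ∧
      l.length = (Bl G p r).ncard := by
  classical
  obtain ⟨l, h1, h2, h3⟩ := exists_chain_aux hG p _ hf.toFinset rfl (by
    intro z hz hzp
    obtain ⟨y, a, hy⟩ := exists_parent hG hzp
    refine ⟨y, ?_, a, hy⟩
    simp only [Finite.mem_toFinset, Bl, mem_ofPred_eq] at hz ⊢
    have : D G p y + 1 = D G p z := by unfold D; exact_mod_cast hy
    linarith)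
  refine ⟨l, h1, fun z => by rw [h2]; simp, h3, ?_⟩
  rw [← List.toFinset_card_of_nodup h1, ← ncard_coe_finset]
  congr 1
  ext z
  simp [h2]

theorem ball_cov (hG : G.Connected) (p : X) {r : ℝ} (hr : 0 ≤ r) (hf : (Bl G p r).Finite) :
    Cov G p p (Bl G p r) (2 * r + 2 * (Bl G p r).ncard) := by
  obtain ⟨l, -, h2, h3, h4⟩ := exists_chain hG p r hf
  rw [← h4]
  exact (closed_cov hG p l hr h3 (fun z hz => (h2 z).1 hz)).mono (fun z hz => (h2 z).2 hz) le_rfl

/-- a point at a prescribed distance -/
theorem exists_at_dist (hG : G.Connected) [Infinite X] (hf : ∀ p r, (Bl G p r).Finite) (p : X)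
    (k : ℕ) : ∃ z, G.dist p z = k := by
  obtain ⟨y, hy⟩ := (hf p k).infinite_compl.nonempty
  have hy' : k < G.dist p y := by
    simp only [Bl, D, mem_compl_iff, mem_ofPred_eq, not_le] at hy
    exact_mod_cast hy
  have : ∀ n, ∀ y, G.dist p y = n → ∀ k ≤ n, ∃ z, G.dist p z = k := by
    intro n
    induction n with
    | zero => intro y h k hk; exact ⟨y, by omega⟩
    | succ n ih =>
      intro y h k hk
      rcases Nat.eq_or_lt_of_le hk with rfl | hk'
      · exact ⟨y, h⟩
      · obtain ⟨x, -, hx⟩ := exists_parent hG (p := p) (z := y) (by rintro rfl; simp at h)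
        exact ih x (by omega) k (by omega)
  exact this _ y rfl k hy'.le

end Pool.Agent.Lib.MP_a15413_al
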