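import Pool.Agent.Lib.MP_a15413_al.Main

set_option autoImplicit false

namespace Pool.Agent.Lib.MP_a15413_al

open Set Filter Topology Cardinal

/-- Cayley graphs -/
abbrev Cay {H : Type} [Group H] (T : Finset H) : SimpleGraph H :=
  SimpleGraph.fromRel (fun a b : H => ∃ s ∈ T, b = a * s)

section cay
variable {H : Type} [Group H] (T : Finset H)

/-- left multiplication -/
def lmul (g : H) : Cay T ≃g Cay T where
  toEquiv := Equiv.mulLeft g
  map_rel_iff' := by
    intro a b
    simp [SimpleGraph.fromRel_adj, mul_assoc]

@[simp] theorem lmul_apply (g a : H) : lmul T g a = g * a := rfl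

theorem cay_vt : VT (Cay T) := fun p q => ⟨lmul T (q * p⁻¹), by simp⟩

theorem cay_reach (g s : H) (hs : s ∈ T) : (Cay T).Reachable g (g * s) := by
  by_cases h : g = g * s
  · rw [← h]
  · exact SimpleGraph.Adj.reachable ⟨h, Or.inl ⟨s, hs, rfl⟩⟩

variable {T}

theorem cay_conn (hT : Subgroup.closure (T : Set H) = ⊤) : (Cay T).Connected := by
  have : ∀ g : H, g ∈ Subgroup.closure (T : Set H) → ∀ a, (Cay T).Reachable a (a * g) := by
    intro g hg
    induction hg using Subgroup.closure_induction with
    | mem x hx => exact fun a => cay_reach T a x hx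
    | one => intro a; rw [mul_one]
    | mul x y _ _ h1 h2 => intro a; rw [← mul_assoc]; exact (h1 a).trans (h2 _)
    | inv x _ h => intro a; have := (h (a * x⁻¹)).symm; simpa using this
  refine ⟨fun a b => ?_⟩
  have := this (a⁻¹ * b) (by rw [hT]; trivial) a
  simpa using this

theorem cay_nice (hT : Subgroup.closure (T : Set H) = ⊤) : Nice (Cay T) := by
  have hc := cay_conn hT
  refine ⟨hc, fun p r => ?_⟩
  have nb : ∀ a, {b | (Cay T).Adj a b}.Finite := by
    intro a
    refine ((T.finite_toSet.image (fun s => a * s)).union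
      (T.finite_toSet.image (fun s => a * s⁻¹))).subset ?_
    rintro b ⟨-, ⟨s, hs, rfl⟩ | ⟨s, hs, rfl⟩⟩
    · exact Or.inl ⟨s, hs, rfl⟩
    · exact Or.inr ⟨s, hs, by simp⟩
  have : ∀ n : ℕ, {z | (Cay T).dist p z ≤ n}.Finite := by
    intro n
    induction n with
    | zero => exact (finite_singleton p).subset fun z hz =>
        (hc.dist_eq_zero_iff.1 (Nat.le_zero.1 hz)).symm
    | succ n ih =>
      refine ((finite_singleton p).union (ih.biUnion fun a _ => nb a)).subset fun z hz => ?_
      by_cases h : z = p
      · exact Or.inl h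
      · obtain ⟨y, h1, h2⟩ := exists_parent hc h
        exact Or.inr (mem_biUnion (show (Cay T).dist p y ≤ n by
          have : (Cay T).dist p z ≤ n + 1 := hz
          omega) h1)
  refine (this ⌈r⌉₊).subset fun z hz => ?_
  have h1 : ((Cay T).dist p z : ℝ) ≤ ⌈r⌉₊ := le_trans hz (Nat.le_ceil r)
  exact_mod_cast h1

theorem cay_D (hT : Subgroup.closure (T : Set H) = ⊤) (g a : H) :
    D (Cay T) g (g * a) = D (Cay T) 1 a := by
  simpa using iso_D (cay_conn hT) (lmul T g) 1 a

end cay

theorem Cov.map {X : Type} {G : SimpleGraph X} (e : G ≃g G) {p q : X} {A : Set X} {l : ℝ}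
    (h : Cov G p q A l) : Cov G (e p) (e q) (e '' A) l := by
  obtain ⟨w, h1, h2⟩ := h
  refine ⟨w.map e.toHom, by rwa [SimpleGraph.Walk.length_map], ?_⟩
  rintro _ ⟨z, hz, rfl⟩
  rw [SimpleGraph.Walk.support_map]
  exact List.mem_map.2 ⟨z, h2 z hz, rfl⟩

theorem sw_group (F : Type) [Group F] [Nontrivial F] : Sw F := by
  obtain ⟨a, ha⟩ := exists_ne (1 : F)
  exact ⟨fun x => a * x, fun x => by simpa using ha, mul_right_injective a⟩

section wr
variable {F H : Type} [Group F] [Group H] [DecidableEq H]

/-- finitely supported configurations -/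
def FS (H F : Type) [Group F] : Set (H → F) := {c | (df 1 c).Finite}

omit [Group H] [DecidableEq H] in
theorem fs_cls : Cls (FS H F) := by
  refine ⟨⟨1, by simp [FS]⟩, fun a ha b h => (Finite.union ha h).subset (df_tri _ _ _),
    fun a ha b hb => (Finite.union ?_ hb).subset (df_tri _ 1 _)⟩
  rw [df_comm]; exact ha

/-- the lamplighter group -/
abbrev LL (F H : Type) [Group F] [Group H] [DecidableEq H] : Subgroup (RegularWreathProduct F H) :=
  Subgroup.closure
    (Set.range (fun a : F => (⟨Pi.mulSingle (1 : H) a, (1 : H)⟩ : RegularWreathProduct F H)) ∪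
      Set.range (fun h : H => (⟨(1 : H → F), h⟩ : RegularWreathProduct F H)))

/-- switching generator -/
def lamp (a : F) : LL F H := ⟨⟨Pi.mulSingle 1 a, 1⟩, Subgroup.subset_closure (Or.inl ⟨a, rfl⟩)⟩

/-- moving generator -/
def mv (h : H) : LL F H := ⟨⟨1, h⟩, Subgroup.subset_closure (Or.inr ⟨h, rfl⟩)⟩

theorem key1 (c : H → F) (x : H) (b : F) :
    (⟨c, x⟩ : RegularWreathProduct F H) * (lamp ((c x)⁻¹ * b) : LL F H).1 =
      ⟨Function.update c x b, x⟩ := by
  ext z
  · by_cases h : z = x
    · subst h; simp [lamp]
    · have : x⁻¹ * z ≠ 1 := fun h2 => h (inv_mul_eq_one.1 h2).symm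
      simp [lamp, h, this]
  · simp [lamp]

theorem key2 (c : H → F) (x y : H) :
    (⟨c, x⟩ : RegularWreathProduct F H) * (mv (x⁻¹ * y) : LL F H).1 = ⟨c, y⟩ := by
  ext z <;> simp [mv]

omit [DecidableEq H] in
theorem df_mul (g a b : RegularWreathProduct F H) :
    df (g * a).left (g * b).left = (fun z => g.right * z) '' df a.left b.left := by
  ext z
  simp only [df, RegularWreathProduct.mul_left, Pi.mul_apply, ne_eq, mul_right_inj, mem_ofPred_eq,
    mem_image]
  constructor
  · intro h; exact ⟨_, h, by simp⟩
  · rintro ⟨y, h, rfl⟩; simpa using h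

theorem mem_LL (g : RegularWreathProduct F H) : g ∈ LL F H ↔ g.left ∈ FS H F := by
  constructor
  · intro hg
    induction hg using Subgroup.closure_induction with
    | mem x hx =>
      rcases hx with ⟨a, rfl⟩ | ⟨a, rfl⟩
      · refine (finite_singleton (1 : H)).subset fun z hz => ?_
        by_contra h
        exact hz (Pi.mulSingle_eq_of_ne (M := fun _ => F) h a).symm
      · simp [FS]
    | one => simp [FS]
    | mul x y _ _ h1 h2 =>
      refine fs_cls.cl _ h1 _ ?_
      have := df_mul x 1 y
      rw [mul_one] at this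
      rw [this]
      exact Finite.image _ h2
    | inv x _ h =>
      have := df_mul x⁻¹ x 1
      rw [mul_one, inv_mul_cancel] at this
      show (df (1 : RegularWreathProduct F H).left _).Finite
      rw [this]
      refine Finite.image _ ?_
      rw [df_comm]; exact h
  · intro hg
    have step : ∀ c c' : H → F, ∀ x, df c c' ⊆ {x} →
        (∀ h, (⟨c, h⟩ : RegularWreathProduct F H) ∈ LL F H) →
        ∀ h, (⟨c', h⟩ : RegularWreathProduct F H) ∈ LL F H := by
      intro c c' x hx h y
      have : c' = Function.update c x (c' x) := by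
        funext z
        by_cases hz : z = x
        · subst hz; simp
        · rw [Function.update_of_ne hz]
          by_contra hn
          exact hz (hx (Ne.symm hn))
      rw [← key2 c' x y, this, ← key1]
      exact mul_mem (mul_mem (h x) (Subtype.prop _)) (Subtype.prop _)
    exact (cls_ind fs_cls (fun c => ∀ h, (⟨c, h⟩ : RegularWreathProduct F H) ∈ LL F H)
      (fun c _ c' _ x hx => ⟨step c c' x hx, step c' c x (by rwa [df_comm])⟩) 1 (by simp [FS])
      g.left hg).1 (fun h => (mv h : LL F H).2) g.right

/-- the state of a group element -/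
def stt (g : LL F H) : St H F := (g.1.left, g.1.right)

open Classical in
/-- the group element of a state -/
noncomputable def elt (s : St H F) : LL F H :=
  if h : s.1 ∈ FS H F then ⟨⟨s.1, s.2⟩, (mem_LL _).2 h⟩ else 1

theorem model [Finite F] {T : Finset H} (hT : Subgroup.closure (T : Set H) = ⊤)
    {S : Finset (LL F H)} (hS : Subgroup.closure (S : Set (LL F H)) = ⊤) :
    ∃ c, Model (Cay T) (FS H F) (Cay S) stt elt c := by
  have cT := cay_conn hT
  have cS := cay_conn hS
  have mem : ∀ g : LL F H, (stt g).1 ∈ FS H F := fun g => (mem_LL _).1 g.2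
  have tl : ∀ g a b : LL F H, ∀ l, Tour (Cay T) (stt a) (stt b) l →
      Tour (Cay T) (stt (g * a)) (stt (g * b)) l := by
    intro g a b l h
    have := Cov.map (lmul T g.1.right) h
    unfold Tour
    refine this.mono (le_of_eq ?_) le_rfl
    exact df_mul g.1 a.1 b.1
  choose l hl using fun s : LL F H => Cov.exists cT (stt (1 : LL F H)).2 (stt s).2
    (fs_cls.fin _ (mem 1) _ (mem s))
  obtain ⟨c0, h0⟩ := (S.finite_toSet.image l).bddAbove
  obtain ⟨c1, h1⟩ := (finite_range fun a : F => D (Cay S) 1 (lamp a)).bddAbove
  obtain ⟨c2, h2⟩ := (T.finite_toSet.image fun t : H => D (Cay S) 1 (mv t)).bddAbove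
  set c := 1 + |c0| + |c1| + |c2| with hc
  have p0 := abs_nonneg c0
  have p1 := abs_nonneg c1
  have p2 := abs_nonneg c2
  have e0 : ∀ g s, s ∈ S → Tour (Cay T) (stt g) (stt (g * s)) c := by
    intro g s hs
    have := tl g 1 s _ (hl s)
    rw [mul_one] at this
    exact this.mono (by linarith [h0 ⟨s, hs, rfl⟩, le_abs_self c0])
  have e1 : ∀ g a, D (Cay S) g (g * lamp a) ≤ |c1| := fun g a => by
    rw [cay_D hS]; exact (h1 ⟨a, rfl⟩).trans (le_abs_self _)
  have e2 : ∀ g t, t ∈ T → D (Cay S) g (g * mv t) ≤ |c2| := fun g t ht => by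
    rw [cay_D hS]; exact (h2 ⟨t, ht, rfl⟩).trans (le_abs_self _)
  have e3 : ∀ g : LL F H, ∀ y, (Cay T).Adj g.1.right y →
      D (Cay S) g (g * mv (g.1.right⁻¹ * y)) ≤ |c2| := by
    rintro g y ⟨-, ⟨t, ht, rfl⟩ | ⟨t, ht, h⟩⟩
    · simpa using e2 g t ht
    · have := e2 (g * mv (g.1.right⁻¹ * y)) t ht
      rw [D_comm]
      convert this using 2
      rw [mul_assoc, left_eq_mul, h]
      ext <;> simp [mv]
  refine ⟨c, by linarith, mem, fun s hs => by simp [elt, hs, stt], fun g => by
    simp only [elt, mem g, dif_pos]; rfl, ?_, ?_⟩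
  · intro g h
    obtain ⟨w, hw⟩ := cS.exists_walk_length_eq_dist g h
    unfold D
    rw [← hw]
    clear hw
    induction w with
    | nil => exact Tour.move cT _ (by simp)
    | @cons a b d hab w ih =>
      have : Tour (Cay T) (stt a) (stt b) c := by
        obtain ⟨-, ⟨s, hs, rfl⟩ | ⟨s, hs, rfl⟩⟩ := hab
        · exact e0 _ _ hs
        · exact (e0 _ _ hs).symm
      refine (this.trans ih).mono (le_of_eq ?_)
      simp only [SimpleGraph.Walk.length_cons]; push_cast; ring
  · rintro g h l ⟨w, hw, hw2⟩
    have : ∀ p q (w : (Cay T).Walk p q), ∀ g h : LL F H, g.1.right = p → h.1.right = q →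
        (∀ z ∈ df g.1.left h.1.left, z ∈ w.support) →
        D (Cay S) g h ≤ |c1| + (|c1| + |c2|) * w.length := by
      intro p q w
      induction w with
      | nil =>
        intro g h a1 a2 a3
        have : h = g * lamp ((g.1.left g.1.right)⁻¹ * h.1.left g.1.right) := by
          apply Subtype.ext
          refine Eq.trans ?_ (key1 g.1.left g.1.right _).symm
          ext z
          · by_cases hz : z = g.1.right
            · subst hz; simp
            · simp only [Function.update_of_ne hz]
              by_contra hn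
              have := a3 z (Ne.symm hn)
              simp only [SimpleGraph.Walk.support_nil, List.mem_singleton] at this
              exact hz (this.trans a1.symm)
          · exact a2.trans a1.symm
        rw [this]
        simpa using e1 g _
      | @cons p y q hpy w ih =>
        intro g h a1 a2 a3
        subst a1
        set g1 := g * lamp ((g.1.left g.1.right)⁻¹ * h.1.left g.1.right) with hg1
        have k1 : g1.1 = _ := key1 g.1.left g.1.right (h.1.left g.1.right)
        have r1 : g1.1.right = g.1.right := by rw [k1]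
        set g2 := g1 * mv (g1.1.right⁻¹ * y) with hg2
        have k2 : g2.1 = _ := key2 g1.1.left g1.1.right y
        have b1 := e1 g ((g.1.left g.1.right)⁻¹ * h.1.left g.1.right)
        have b2 := e3 g1 y (by rwa [r1])
        have b3 := ih g2 h (by rw [k2]) a2 (by
          intro z hz
          rw [k2, k1] at hz
          by_cases hx : z = g.1.right
          · subst hx; exact absurd (by simp) hz
          · have : z ∈ df g.1.left h.1.left := by
              simp only [df, mem_ofPred_eq, Function.update_of_ne hx] at hz; exact hz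
            have := a3 z this
            simp only [SimpleGraph.Walk.support_cons, List.mem_cons] at this
            exact this.resolve_left hx)
        have := D_tri cS g g1 h
        have := D_tri cS g1 g2 h
        simp only [SimpleGraph.Walk.length_cons]; push_cast
        linarith
    have h3 := this _ _ w g h rfl rfl hw2
    have h4 : (0 : ℝ) ≤ w.length := by positivity
    nlinarith

end wr

end Pool.Agent.Lib.MP_a15413_al
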